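import Pool.Agent.H.MP_720da9_gt.Defs

namespace Pool.Agent.H.MP_720da9_gt

def cs {α : Type} (f : α → α → ℤ) (l : List α) : ℤ := ((cyc l).map fun p => f p.1 p.2).sum

theorem cs_map {α β : Type} (f : β → β → ℤ) (r : α → β) (l : List α) :
    cs f (l.map r) = cs (fun i j => f (r i) (r j)) l := by
  unfold cs cyc
  rw [← List.map_rotate, List.zip_map, List.map_map]
  rfl

theorem cs3 {α : Type} (f : α → α → ℤ) (x y z : α) : cs f [x, y, z] = f x y + f y z + f z x := by
  simp [cs, cyc, add_assoc]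

theorem cs4 {α : Type} (f : α → α → ℤ) (x y z u : α) :
    cs f [x, y, z, u] = f x y + f y z + f z u + f u x := by
  simp [cs, cyc, add_assoc]

theorem cs_add {α : Type} (f g : α → α → ℤ) (l : List α) :
    cs (fun i j => f i j + g i j) l = cs f l + cs g l := by
  unfold cs; rw [List.sum_map_add]

theorem cs_mul {α : Type} (c : ℤ) (f : α → α → ℤ) (l : List α) :
    cs (fun i j => c * f i j) l = c * cs f l := by
  unfold cs; rw [List.sum_map_mul_left]

theorem cs_tel {α : Type} (p : α → ℤ) (l : List α) : cs (fun i j => p i + -1 * p j) l = 0 := by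
  rw [cs_add (fun i _ => p i) (fun _ j => -1 * p j), cs_mul (-1) (fun _ j => p j)]
  have h1 : cs (fun i _ => p i) l = (l.map p).sum := by
    unfold cs cyc
    rw [show (fun q : α × α => p q.1) = p ∘ Prod.fst from rfl, ← List.map_map,
      List.map_fst_zip (by simp)]
  have h2 : cs (fun _ j => p j) l = (l.map p).sum := by
    unfold cs cyc
    rw [show (fun q : α × α => p q.2) = p ∘ Prod.snd from rfl, ← List.map_map,
      List.map_snd_zip (by simp)]
    exact ((List.rotate_perm l 1).map p).sum_eq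
  rw [h1, h2]; ring

theorem cs_congr {α : Type} (f g : α → α → ℤ) (l : List α)
    (h : ∀ i ∈ l, ∀ j ∈ l, f i j = g i j) : cs f l = cs g l := by
  unfold cs cyc
  congr 1
  apply List.map_congr_left
  intro p hp
  have := List.of_mem_zip (a := p.1) (b := p.2) hp
  exact h _ this.1 _ (List.mem_rotate.1 this.2)

theorem lsum_comm {α β : Type} (f : α → β → ℤ) (l : List α) (m : List β) :
    (l.map fun a => (m.map fun b => f a b).sum).sum =
      (m.map fun b => (l.map fun a => f a b).sum).sum := by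
  induction l with
  | nil => simp
  | cons a l ih => simp only [List.map_cons, List.sum_cons, ih, List.sum_map_add]

theorem gauge (f : ℕ → ℕ → ℤ) (hf : ∀ i j, f j i = - f i j) (r : ℕ → ℕ) (l : List ℕ) :
    cs f (l.map r) = cs (fun i j => cs f [r 0, r i, r j]) l := by
  have h := cs_tel (fun i => f (r 0) (r i)) l
  rw [cs_map, ← add_zero (cs _ l), ← h, ← cs_add]
  congr 1
  funext i j
  rw [cs3, hf (r 0) (r j)]; ring

def lam (w : ℕ → ℕ → ℕ → ℕ → ℤ) (C : List ℕ) (k l : ℕ) : ℤ := cs (fun i j => w i j k l) C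

def lk2 (w : ℕ → ℕ → ℕ → ℕ → ℤ) (C D : List ℕ) : ℤ := cs (lam w C) D

def good (l : List ℕ) : Prop := l.Nodup ∧ ∀ x ∈ l, x < 9

instance (l : List ℕ) : Decidable (good l) := by unfold good; infer_instance

structure HH (w : ℕ → ℕ → ℕ → ℕ → ℤ) : Prop where
  as : ∀ i j k l, w j i k l = - w i j k l
  sym : ∀ i j k l, w k l i j = w i j k l
  bd : ∀ C D : List ℕ, 3 ≤ C.length → 3 ≤ D.length → good (C ++ D) → |lk2 w C D| < 4
  ev : ∀ a b c d e f, good [a, b, c, d, e, f] → 2 ∣ lk2 w [a, b, c] [d, e, f]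
  cg : ∀ a b c d e f, good [a, b, c, d, e, f] →
    (lk2 w [a, b, c] [d, e, f] + lk2 w [a, b, d] [c, e, f] + lk2 w [a, b, e] [c, d, f] +
      lk2 w [a, b, f] [c, d, e] + lk2 w [a, c, d] [b, e, f] + lk2 w [a, c, e] [b, d, f] +
      lk2 w [a, c, f] [b, d, e] + lk2 w [a, d, e] [b, c, f] + lk2 w [a, d, f] [b, c, e] +
      lk2 w [a, e, f] [b, c, d]) % 4 = 2

theorem lk2_symm {w : ℕ → ℕ → ℕ → ℕ → ℤ} (h : HH w) (C D : List ℕ) : lk2 w C D = lk2 w D C := by
  unfold lk2 lam cs
  rw [lsum_comm]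
  simp only [h.sym]

theorem lam_as {w : ℕ → ℕ → ℕ → ℕ → ℤ} (h : HH w) (C : List ℕ) (k l : ℕ) :
    lam w C l k = - lam w C k l := by
  unfold lam
  rw [← neg_one_mul, ← cs_mul]
  congr 1
  funext i j
  rw [← h.sym i j l k, h.as, h.sym]; ring

theorem good_map (C : List ℕ) (n : ℕ) (r : ℕ → ℕ) (h : good (C ++ (List.range n).map r))
    (l : List ℕ) (hl : l.Nodup) (hn : ∀ x ∈ l, x < n) : good (C ++ l.map r) := by
  obtain ⟨h1, h2⟩ := h
  rw [List.nodup_append] at h1
  obtain ⟨h3, h4, h5⟩ := h1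
  have hi := List.inj_on_of_nodup_map h4
  refine ⟨?_, ?_⟩
  · rw [List.nodup_append]
    refine ⟨h3, ?_, ?_⟩
    · exact List.Nodup.map_on (fun x hx y hy e =>
        hi (List.mem_range.2 (hn x hx)) (List.mem_range.2 (hn y hy)) e) hl
    · intro a ha b hb
      obtain ⟨x, hx, rfl⟩ := List.mem_map.1 hb
      exact h5 a ha _ (List.mem_map.2 ⟨x, List.mem_range.2 (hn x hx), rfl⟩)
  · intro x hx
    rcases List.mem_append.1 hx with hx | hx
    · exact h2 x (List.mem_append_left _ hx)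
    · obtain ⟨y, hy, rfl⟩ := List.mem_map.1 hx
      exact h2 _ (List.mem_append_right _ (List.mem_map.2 ⟨y, List.mem_range.2 (hn y hy), rfl⟩))

def act (w : ℕ → ℕ → ℕ → ℕ → ℤ) (g : ℕ → ℕ) (s : ℤ) : ℕ → ℕ → ℕ → ℕ → ℤ :=
  fun i j k l => s * w (g i) (g j) (g k) (g l)

theorem lk2_act (w : ℕ → ℕ → ℕ → ℕ → ℤ) (g : ℕ → ℕ) (s : ℤ) (C D : List ℕ) :
    lk2 (act w g s) C D = s * lk2 w (C.map g) (D.map g) := by
  unfold lk2
  rw [cs_map, ← cs_mul]
  congr 1
  funext k l
  unfold lam act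
  rw [cs_map, ← cs_mul]

theorem HH_act {w : ℕ → ℕ → ℕ → ℕ → ℤ} (h : HH w) (g : ℕ → ℕ) (s : ℤ) (hs : s = 1 ∨ s = -1)
    (hg : good ((List.range 9).map g)) : HH (act w g s) := by
  have gm : ∀ l, good l → good (l.map g) := fun l hl =>
    good_map [] 9 g hg l hl.1 hl.2
  refine ⟨?_, ?_, ?_, ?_, ?_⟩
  · intro i j k l; unfold act; rw [h.as]; ring
  · intro i j k l; unfold act; rw [h.sym]
  · intro C D h1 h2 h3
    have := h.bd (C.map g) (D.map g) (by simpa) (by simpa) (by rw [← List.map_append]; exact gm _ h3)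
    rw [lk2_act]
    rcases hs with rfl | rfl
    · simpa using this
    · simpa using this
  · intro a b c d e f h3
    rw [lk2_act]
    exact Dvd.dvd.mul_left (h.ev _ _ _ _ _ _ (gm _ h3)) _
  · intro a b c d e f h3
    have := h.cg _ _ _ _ _ _ (gm _ h3)
    simp only [lk2_act, List.map_cons, List.map_nil]
    rcases hs with rfl | rfl <;> omega

def isRot (l : List ℕ) (x y z : ℕ) : Prop := l = [x, y, z] ∨ l = [y, z, x] ∨ l = [z, x, y]

instance (l : List ℕ) (x y z : ℕ) : Decidable (isRot l x y z) := by unfold isRot; infer_instance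

theorem cs_rot (f : ℕ → ℕ → ℤ) {l : List ℕ} {x y z : ℕ} (h : isRot l x y z) :
    cs f l = f x y + f y z + f z x := by
  rcases h with rfl | rfl | rfl <;> rw [cs3] <;> ring

end Pool.Agent.H.MP_720da9_gt
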