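import Pool.Agent.H.MP_720da9_gt.Tab

namespace Pool.Agent.H.MP_720da9_gt

def tab (X w i : ℕ) : ℕ := Nat.mod (Nat.shiftRight X (Nat.mul w i)) (Nat.pow 2 w)
def msk (X i : ℕ) : ℕ := Nat.land (Nat.shiftRight X (Nat.mul 151 i)) FULL
def rem (D u m : ℕ) : ℕ := Nat.xor D (Nat.shiftLeft (Nat.land (msk D u) m) (Nat.mul 151 u))
noncomputable def force {α : Type} (n : ℕ) (k : ℕ → α) : α :=
  Nat.rec (k 0) (fun m _ => k (Nat.succ m)) n
def pm (p : Bool) (m : ℕ) : ℕ := cond p m (Nat.xor FULL m)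

def st0 (D tu v e : ℕ) : ℕ :=
  cond (Nat.beq (Nat.land (msk D (Nat.div tu 128)) (msk MAX (Nat.add (Nat.mul (Nat.mod e 32) 4) v))) 0)
    (rem D (Nat.mod tu 128) (msk MAX (Nat.add (Nat.mul (Nat.div e 32) 4) v))) D

def st1 (D tu k e : ℕ) : ℕ :=
  cond (Nat.beq (Nat.land (msk D (Nat.div tu 128)) (msk M1X (Nat.add (Nat.mul (Nat.mod e 16) 64) k))) 0)
    (rem D (Nat.mod tu 128) (msk M2X (Nat.add (Nat.mul (Nat.div e 16) 64) k))) D

def cf1 (a x r : ℕ) : ℕ :=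
  cond (Nat.beq x a) r (cond (Nat.beq x 0) (Nat.succ r) (Nat.add r 11))

def cf2 (D tu r : ℕ) : ℕ :=
  cf1 (msk D (Nat.div tu 128))
    (Nat.land (msk D (Nat.div tu 128))
      (msk MAX (Nat.add (Nat.mul (Nat.mod (tab DJX 10 tu) 32) 4) 1))) r

noncomputable def cf (D z : ℕ) : ℕ → ℕ :=
  Nat.rec 0 (fun i r => cf2 D (tab K6X 14 (Nat.add (Nat.mul z 10) i)) r)

def ev10 (r : ℕ) : Bool := and (Nat.ble r 10) (Nat.beq (Nat.mod r 2) 0)

noncomputable def st2 (D u m z : ℕ) : ℕ :=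
  cond (and (Nat.blt z 84) (ev10 (cf (rem D u (Nat.xor FULL m)) z 10))) (rem D u m) D

structure Lit where
  a : ℕ
  b : ℕ
  c : ℕ
  d : ℕ
  e : ℕ
  f : ℕ
  v : ℕ
  pol : Bool

def pt (a b c : ℕ) : ℕ := tab PTX 8 (Nat.add a (Nat.add (Nat.mul 16 b) (Nat.mul 256 c)))

def lv2 (t u e v' : ℕ) (bad : Bool) (k : ℕ → ℕ → ℕ → ℕ → ℕ) (fail : ℕ) : ℕ :=
  cond (or (Nat.beq e 0) bad) fail
    (k t u (Nat.add (Nat.mul (Nat.mod e 32) 4) v') (Nat.add (Nat.mul (Nat.div e 32) 4) v'))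

def lv (p q v sg : ℕ) (k : ℕ → ℕ → ℕ → ℕ → ℕ) (fail : ℕ) : ℕ :=
  lv2 (Nat.div p 2) (Nat.div q 2) (tab DJX 10 (Nat.add (Nat.mul (Nat.div p 2) 128) (Nat.div q 2)))
    (cond (Nat.beq (Nat.mod (Nat.add (Nat.add p q) sg) 2) 0) v (Nat.sub 2 v)) (Nat.ble 3 v) k fail

def gd (g i : ℕ) : ℕ := Nat.mod (Nat.shiftRight g (Nat.mul 4 i)) 16

def k3 (D u : ℕ) (pol : Bool) (r t' u' i1 i2 : ℕ) : ℕ :=
  cond (Nat.beq t' u) (Nat.land (pm pol (msk MAX i1)) r)
    (cond (Nat.beq u' u) (Nat.land (pm pol (msk MAX i2)) r)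
      (cond (Nat.beq (Nat.land (msk D t') (pm (not pol) (msk MAX i1))) 0) r 0))

noncomputable def go3 (D u g sg : ℕ) : List Lit → ℕ :=
  List.rec FULL (fun l _ r =>
    lv (pt (gd g l.a) (gd g l.b) (gd g l.c)) (pt (gd g l.d) (gd g l.e) (gd g l.f)) l.v sg
      (k3 D u l.pol r) 0)

noncomputable def fresh : List ℕ → ℕ → Bool :=
  List.rec (fun _ => true) (fun x _ r acc =>
    and (and (Nat.blt x 9) (Nat.beq (Nat.land acc (Nat.shiftLeft 1 x)) 0))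
      (r (Nat.lor acc (Nat.shiftLeft 1 x))))

def gl (g : ℕ) : List ℕ := [gd g 0, gd g 1, gd g 2, gd g 3, gd g 4, gd g 5, gd g 6, gd g 7, gd g 8]

noncomputable def nth (L : List (List Lit)) : ℕ → List Lit :=
  List.rec (fun _ => []) (fun x _ r n => Nat.rec x (fun m _ => r m) n) L

noncomputable def st3 (L : List (List Lit)) (id D u j sg g : ℕ) : ℕ :=
  cond (and (Nat.blt j id) (fresh (gl g) 0)) (rem D u (go3 D u g sg (nth L j))) D

noncomputable def step (L : List (List Lit)) (id D c : ℕ) : ℕ :=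
  cond (Nat.beq (Nat.mod c 4) 0)
    (st0 D (Nat.mod (Nat.div c 4) 16384) (Nat.mod (Nat.div c 65536) 4)
      (tab DJX 10 (Nat.mod (Nat.div c 4) 16384)))
    (cond (Nat.beq (Nat.mod c 4) 1)
      (st1 D (Nat.mod (Nat.div c 4) 16384) (Nat.mod (Nat.div c 65536) 64)
        (tab EJX 8 (Nat.mod (Nat.div c 4) 16384)))
      (cond (Nat.beq (Nat.mod c 4) 2)
        (st2 D (Nat.mod (Nat.div c 4) 128)
          (pm (Nat.beq (Nat.mod (Nat.div c 65536) 2) 0) (msk MAX (Nat.mod (Nat.div c 512) 128)))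
          (Nat.div c 131072))
        (st3 L id D (Nat.mod (Nat.div c 4) 128) (Nat.mod (Nat.div c 512) 64)
          (Nat.mod (Nat.div c 32768) 2) (Nat.div c 65536))))

noncomputable def run (L : List (List Lit)) (id c : ℕ) : ℕ → ℕ → ℕ :=
  Nat.rec (fun D => D) (fun n r D => force (tab c 52 n) (fun x => force (step L id D x) r))

inductive Pf where
  | leaf (u : ℕ) : Pf
  | cont (n c : ℕ) (p : Pf) : Pf
  | br (t i : ℕ) (a b : Pf) : Pf

noncomputable def chk (L : List (List Lit)) (id : ℕ) (p : Pf) : ℕ → Bool :=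
  Pf.rec (fun u D => and (Nat.blt u 84) (Nat.beq (msk D u) 0))
    (fun n c _ r D => force (run L id c n D) r)
    (fun t i _ _ ra rb D =>
      and (force (rem D t (Nat.xor FULL (msk MAX i))) ra) (force (rem D t (msk MAX i)) rb)) p

def small (l : Lit) : Bool :=
  decide (l.a < 16 ∧ l.b < 16 ∧ l.c < 16 ∧ l.d < 16 ∧ l.e < 16 ∧ l.f < 16)

noncomputable def ini : List Lit → ℕ :=
  List.rec ALL (fun l _ r => cond (small l)
    (lv (pt l.a l.b l.c) (pt l.d l.e l.f) l.v 0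
      (fun t _ i _ => rem r t (pm (not l.pol) (msk MAX i))) r) r)

noncomputable def check (L : List (List Lit)) (id : ℕ) (p : Pf) : Bool :=
  force (ini (nth L id)) (chk L id p)

end Pool.Agent.H.MP_720da9_gt
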