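import Pool.Agent.H.MP_720da9_gt.Sound2
import Pool.Agent.H.MP_720da9_gt.C0
import Pool.Agent.H.MP_720da9_gt.C1
import Pool.Agent.H.MP_720da9_gt.C2
import Pool.Agent.H.MP_720da9_gt.C3
import Pool.Agent.H.MP_720da9_gt.C4
import Pool.Agent.H.MP_720da9_gt.C5
import Pool.Agent.H.MP_720da9_gt.C6
import Pool.Agent.H.MP_720da9_gt.C7
import Pool.Agent.H.MP_720da9_gt.C8
import Pool.Agent.H.MP_720da9_gt.C9

namespace Pool.Agent.H.MP_720da9_gt

theorem l0 : ∀ j < 0, Lem (nth LEMS j) := fun _ h => absurd h (by omega)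
theorem l1 : ∀ j < 1, Lem (nth LEMS j) := check_sound LEMS 0 l0 pf0 ck0
theorem l2 : ∀ j < 2, Lem (nth LEMS j) := check_sound LEMS 1 l1 pf1 ck1
theorem l3 : ∀ j < 3, Lem (nth LEMS j) := check_sound LEMS 2 l2 pf2 ck2
theorem l4 : ∀ j < 4, Lem (nth LEMS j) := check_sound LEMS 3 l3 pf3 ck3
theorem l5 : ∀ j < 5, Lem (nth LEMS j) := check_sound LEMS 4 l4 pf4 ck4
theorem l6 : ∀ j < 6, Lem (nth LEMS j) := check_sound LEMS 5 l5 pf5 ck5
theorem l7 : ∀ j < 7, Lem (nth LEMS j) := check_sound LEMS 6 l6 pf6 ck6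
theorem l8 : ∀ j < 8, Lem (nth LEMS j) := check_sound LEMS 7 l7 pf7 ck7
theorem l9 : ∀ j < 9, Lem (nth LEMS j) := check_sound LEMS 8 l8 pf8 ck8
theorem l10 : ∀ j < 10, Lem (nth LEMS j) := check_sound LEMS 9 l9 pf9 ck9
theorem l11 : ∀ j < 11, Lem (nth LEMS j) := check_sound LEMS 10 l10 pf10 ck10
theorem l12 : ∀ j < 12, Lem (nth LEMS j) := check_sound LEMS 11 l11 pf11 ck11
theorem l13 : ∀ j < 13, Lem (nth LEMS j) := check_sound LEMS 12 l12 pf12 ck12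
theorem l14 : ∀ j < 14, Lem (nth LEMS j) := check_sound LEMS 13 l13 pf13 ck13
theorem l15 : ∀ j < 15, Lem (nth LEMS j) := check_sound LEMS 14 l14 pf14 ck14
theorem l16 : ∀ j < 16, Lem (nth LEMS j) := check_sound LEMS 15 l15 pf15 ck15
theorem l17 : ∀ j < 17, Lem (nth LEMS j) := check_sound LEMS 16 l16 pf16 ck16
theorem l18 : ∀ j < 18, Lem (nth LEMS j) := check_sound LEMS 17 l17 pf17 ck17
theorem l19 : ∀ j < 19, Lem (nth LEMS j) := check_sound LEMS 18 l18 pf18 ck18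

theorem not_HH (w : ℕ → ℕ → ℕ → ℕ → ℤ) : ¬ HH w := by
  intro h
  refine l19 18 (by omega) w h ?_
  rw [show nth LEMS 18 = [] from rfl]
  intro l hl
  cases hl

end Pool.Agent.H.MP_720da9_gt
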