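import Mathlib

namespace Pool.Agent.H.MP_720da9_gt

/-- Points of three-space. -/
abbrev Pt : Type := Fin 3 → ℝ

/-- The projection to the horizontal plane. -/
def pr (A : Pt) : ℝ × ℝ := (A 0, A 1)

/-- The consecutive pairs of a list (the segments of a polygonal arc). -/
def segs (l : List Pt) : List (Pt × Pt) := l.zip l.tail

/-- The cyclically consecutive pairs of a list (the oriented edges of a cycle). -/
def cyc {α : Type} (l : List α) : List (α × α) := l.zip (l.rotate 1)

/-- Twice the signed area of the projected triangle `A B C`. -/
def det2 (A B C : Pt) : ℝ := (B 0 - A 0) * (C 1 - A 1) - (B 1 - A 1) * (C 0 - A 0)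

/-- The triple product `((B - A) × (D - C)) · (A - C)`. -/
def triple (A B C D : Pt) : ℝ := (crossProduct (B - A) (D - C)) ⬝ᵥ (A - C)

/-- The sign of the crossing of the oriented segments `s` and `t` in the diagram obtained by
projecting to the horizontal plane; zero if the projected segments do not cross. -/
noncomputable def crossSign (s t : Pt × Pt) : ℤ :=
  if det2 s.1 s.2 t.1 * det2 s.1 s.2 t.2 < 0 ∧ det2 t.1 t.2 s.1 * det2 t.1 t.2 s.2 < 0 then
    (SignType.sign (triple s.1 s.2 t.1 t.2) : ℤ)
  else 0

/-- The linking number of two closed oriented polygons, given by their lists of segments: half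
the sum of the signs of the crossings between the two. -/
noncomputable def linking (P Q : List (Pt × Pt)) : ℚ :=
  ((P.map fun s => (Q.map fun t => crossSign s t).sum).sum : ℤ) / 2

/-- A polygonal placement of the complete graph on `n` vertices in three-space: positions of the
vertices, and for each edge the list of its interior break points. -/
structure Spatial (n : ℕ) where
  vert : Fin n → Pt
  mid : Fin n → Fin n → List Pt
  rev : ∀ i j, mid j i = (mid i j).reverse

/-- The vertices of the polygonal arc drawn for the edge from `i` to `j`. -/
def Spatial.arc {n : ℕ} (E : Spatial n) (i j : Fin n) : List Pt :=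
  E.vert i :: (E.mid i j ++ [E.vert j])

/-- The arcs of any two edges without a common vertex are disjoint in three-space. -/
def Spatial.Apart {n : ℕ} (E : Spatial n) : Prop :=
  ∀ i j k l, [i, j, k, l].Nodup → ∀ s ∈ segs (E.arc i j), ∀ t ∈ segs (E.arc k l),
    Disjoint (segment ℝ s.1 s.2) (segment ℝ t.1 t.2)

/-- The projection is regular: for two edges without a common vertex, no vertex or break point
of one arc projects onto the projection of the other arc. -/
def Spatial.Regular {n : ℕ} (E : Spatial n) : Prop :=
  ∀ i j k l, [i, j, k, l].Nodup → ∀ s ∈ segs (E.arc i j), ∀ X ∈ E.arc k l,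
    pr X ∉ segment ℝ (pr s.1) (pr s.2)

/-- The closed oriented polygon drawn for the cycle with the given cyclic list of vertices. -/
def Spatial.polygon {n : ℕ} (E : Spatial n) (C : List (Fin n)) : List (Pt × Pt) :=
  (cyc C).flatMap fun e => segs (E.arc e.1 e.2)

end Pool.Agent.H.MP_720da9_gt
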