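import Pool.Agent.H.MP_720da9_gt.Abs

namespace Pool.Agent.H.MP_720da9_gt

open SignType

def bal3 (x y z : SignType) : Prop := (x = 1 ∨ y = 1 ∨ z = 1) ↔ (x = -1 ∨ y = -1 ∨ z = -1)
def bal4 (x y z u : SignType) : Prop :=
  (x = 1 ∨ y = 1 ∨ z = 1 ∨ u = 1) ↔ (x = -1 ∨ y = -1 ∨ z = -1 ∨ u = -1)
instance (x y z : SignType) : Decidable (bal3 x y z) := by unfold bal3; infer_instance
instance (x y z u : SignType) : Decidable (bal4 x y z u) := by unfold bal4; infer_instance

theorem bal4_of (x y z u : ℝ) (h : x + y + z + u = 0) :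
    bal4 (sign x) (sign y) (sign z) (sign u) := by
  unfold bal4
  simp only [sign_eq_one_iff, sign_eq_neg_one_iff]
  constructor
  · intro h1
    by_contra h2
    push Not at h2
    rcases h1 with h1 | h1 | h1 | h1 <;> linarith [h2.1, h2.2.1, h2.2.2.1, h2.2.2.2]
  · intro h1
    by_contra h2
    push Not at h2
    rcases h1 with h1 | h1 | h1 | h1 <;> linarith [h2.1, h2.2.1, h2.2.2.1, h2.2.2.2]

theorem bal3_of (x y z : ℝ) (h : x + y + z = 0) : bal3 (sign x) (sign y) (sign z) := by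
  have := bal4_of x y z 0 (by linarith)
  unfold bal4 at this
  unfold bal3
  simpa using this

def rayS (s t u : SignType) : ℤ :=
  if (s = 1 ∧ t = -1 ∧ u = 1) ∨ (s = -1 ∧ t = 1 ∧ u = -1) then 1 else 0
def oS (s : SignType) : ℤ := if s = 1 then 1 else 0
def crS (p1 p2 q1 q2 : SignType) : ℤ := if p1 * p2 = -1 ∧ q1 * q2 = -1 then 1 else 0

set_option synthInstance.maxSize 100000 in
theorem fin_core : ∀ ca : SignType, ca ≠ 0 → ∀ da : SignType, da ≠ 0 → ∀ cb : SignType, cb ≠ 0 →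
    ∀ db : SignType, db ≠ 0 → ∀ ab : SignType, bal3 ab cb (-ca) → bal3 ab db (-da) →
    ∀ cd : SignType, bal3 cd ca (-da) → bal3 cd cb (-db) →
    ∀ p1 : SignType, (ca * cb = -1 → p1 ≠ 0) → ∀ p2 : SignType, (da * db = -1 → p2 ≠ 0) →
    ∀ q1 : SignType, (ca * da = -1 → q1 ≠ 0) → ∀ q2 : SignType, (cb * db = -1 → q2 ≠ 0) →
    bal4 q2 (-q1) p2 (-p1) → bal3 (-(q1 * ab)) (p2 * ca) (-(p1 * da)) →
    bal3 (-(q2 * ab)) (p2 * cb) (-(p1 * db)) → bal3 (-(q2 * ca)) (q1 * cb) (-(p1 * cd)) →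
    bal3 (-(q2 * da)) (q1 * db) (-(p2 * cd)) →
    (crS p1 p2 q1 q2 - (rayS ca cb p1 - rayS da db p2 + (rayS (-ca) (-da) q1 - rayS (-cb) (-db) q2) +
      ((oS (-ca) - oS (-da)) - (oS (-cb) - oS (-db))))) % 2 = 0 := by
  decide +kernel

noncomputable def ray (a b c p : ℝ) : ℤ := rayS (sign (c - a)) (sign (c - b)) (sign p)
noncomputable def ord (a b : ℝ) : ℤ := oS (sign (b - a))

theorem real_core (a b c d p1 p2 q1 q2 : ℝ) (h1 : c ≠ a) (h2 : d ≠ a) (h3 : c ≠ b) (h4 : d ≠ b)
    (n1 : (c - a) * (c - b) < 0 → p1 ≠ 0) (n2 : (d - a) * (d - b) < 0 → p2 ≠ 0)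
    (n3 : (a - c) * (a - d) < 0 → q1 ≠ 0) (n4 : (b - c) * (b - d) < 0 → q2 ≠ 0)
    (r1 : q2 - q1 + p2 - p1 = 0) (r2 : q2 * a - q1 * b + p2 * c - p1 * d = 0) :
    ((if p1 * p2 < 0 ∧ q1 * q2 < 0 then (1 : ℤ) else 0) -
      (ray a b c p1 - ray a b d p2 + (ray c d a q1 - ray c d b q2) +
        ((ord c a - ord d a) - (ord c b - ord d b)))) % 2 = 0 := by
  have sn : ∀ x y : ℝ, sign (x - y) = - sign (y - x) := fun x y => by
    rw [← Left.sign_neg, neg_sub]
  have := fin_core (sign (c - a)) (sign_ne_zero.2 (sub_ne_zero.2 h1))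
    (sign (d - a)) (sign_ne_zero.2 (sub_ne_zero.2 h2)) (sign (c - b)) (sign_ne_zero.2 (sub_ne_zero.2 h3))
    (sign (d - b)) (sign_ne_zero.2 (sub_ne_zero.2 h4)) (sign (b - a))
    (by rw [← Left.sign_neg]; exact bal3_of _ _ _ (by ring))
    (by rw [← Left.sign_neg]; exact bal3_of _ _ _ (by ring)) (sign (d - c))
    (by rw [← Left.sign_neg]; exact bal3_of _ _ _ (by ring))
    (by rw [← Left.sign_neg]; exact bal3_of _ _ _ (by ring))
    (sign p1) (fun h => sign_ne_zero.2 (n1 (by rwa [← sign_mul, sign_eq_neg_one_iff] at h)))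
    (sign p2) (fun h => sign_ne_zero.2 (n2 (by rwa [← sign_mul, sign_eq_neg_one_iff] at h)))
    (sign q1) (fun h => sign_ne_zero.2 (n3 (by
      rw [← sign_mul, sign_eq_neg_one_iff] at h; linarith)))
    (sign q2) (fun h => sign_ne_zero.2 (n4 (by
      rw [← sign_mul, sign_eq_neg_one_iff] at h; linarith)))
    (by rw [← Left.sign_neg, ← Left.sign_neg]; exact bal4_of _ _ _ _ (by linarith))
    (by simp only [← sign_mul, ← Left.sign_neg]
        exact bal3_of _ _ _ (by linear_combination r2 - a * r1))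
    (by simp only [← sign_mul, ← Left.sign_neg]
        exact bal3_of _ _ _ (by linear_combination r2 - b * r1))
    (by simp only [← sign_mul, ← Left.sign_neg]
        exact bal3_of _ _ _ (by linear_combination r2 - c * r1))
    (by simp only [← sign_mul, ← Left.sign_neg]
        exact bal3_of _ _ _ (by linear_combination r2 - d * r1))
  unfold ray ord
  rw [sn a c, sn a d, sn b c, sn b d]
  unfold crS at this
  simp only [← sign_mul, sign_eq_neg_one_iff] at this
  exact this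

theorem triple_eq (A B C D : Pt) : triple A B C D =
    ((B 1 - A 1) * (D 2 - C 2) - (B 2 - A 2) * (D 1 - C 1)) * (A 0 - C 0) +
    ((B 2 - A 2) * (D 0 - C 0) - (B 0 - A 0) * (D 2 - C 2)) * (A 1 - C 1) +
    ((B 0 - A 0) * (D 1 - C 1) - (B 1 - A 1) * (D 0 - C 0)) * (A 2 - C 2) := by
  unfold triple
  rw [cross_apply]
  simp [dotProduct, Fin.sum_univ_three]

theorem cross_swap (A B : Pt) (t : Pt × Pt) : crossSign (B, A) t = - crossSign (A, B) t := by
  unfold crossSign
  have e1 : det2 B A t.1 * det2 B A t.2 = det2 A B t.1 * det2 A B t.2 := by unfold det2; ring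
  have e2 : triple B A t.1 t.2 = - triple A B t.1 t.2 := by rw [triple_eq, triple_eq]; ring
  simp only [e1, e2, mul_comm (det2 t.1 t.2 B), Left.sign_neg]
  split_ifs <;> simp

theorem cross_symm (s t : Pt × Pt) : crossSign t s = crossSign s t := by
  unfold crossSign
  have e2 : triple t.1 t.2 s.1 s.2 = triple s.1 s.2 t.1 t.2 := by rw [triple_eq, triple_eq]; ring
  simp only [e2, and_comm]

theorem triple_ne (A B C D : Pt) (hd : Disjoint (segment ℝ A B) (segment ℝ C D))
    (h1 : det2 A B C * det2 A B D < 0) (h2 : det2 C D A * det2 C D B < 0) :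
    triple A B C D ≠ 0 := by
  intro h0
  have r1 : det2 C D B - det2 C D A = det2 A B C - det2 A B D := by unfold det2; ring
  have r2 : ∀ i, det2 C D B * A i - det2 C D A * B i = det2 A B C * D i - det2 A B D * C i := by
    intro i
    fin_cases i
    · simp only [det2, Fin.zero_eta]; ring
    · simp only [det2, Fin.mk_one]; ring
    · rw [triple_eq] at h0
      simp only [det2, Fin.reduceFinMk]; linear_combination -h0
  generalize det2 A B C = p1 at *
  generalize det2 A B D = p2 at *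
  generalize det2 C D A = q1 at *
  generalize det2 C D B = q2 at *
  have hΔ : q2 - q1 ≠ 0 := by
    intro h
    have : q2 = q1 := by linarith
    rw [this] at h2; nlinarith [mul_self_nonneg q1]
  have sq : 0 < (q2 - q1) ^ 2 := by positivity
  have k : ∀ x : ℝ, 0 ≤ x * (q2 - q1) → 0 ≤ x / (q2 - q1) := fun x hx => by
    rw [show x / (q2 - q1) = x * (q2 - q1) / (q2 - q1) ^ 2 by field_simp]; positivity
  refine Set.disjoint_left.1 hd (show (q2 / (q2 - q1)) • A + (-q1 / (q2 - q1)) • B ∈ _ from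
    ⟨_, _, k _ (by nlinarith [mul_self_nonneg q2]), k _ (by nlinarith [mul_self_nonneg q1]),
      by field_simp; ring, rfl⟩)
    ⟨-p2 / (q2 - q1), p1 / (q2 - q1), k _ (by rw [r1]; nlinarith [mul_self_nonneg p2]),
      k _ (by rw [r1]; nlinarith [mul_self_nonneg p1]), by field_simp; linarith, ?_⟩
  funext i
  simp only [Pi.add_apply, Pi.smul_apply, smul_eq_mul]
  field_simp
  linear_combination - r2 i

def ht (δ : ℝ) (X : Pt) : ℝ := X 1 + δ * X 0

theorem det_ne (δ : ℝ) (A B C : Pt) (hC : pr C ∉ segment ℝ (pr A) (pr B))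
    (h : (ht δ C - ht δ A) * (ht δ C - ht δ B) < 0) : det2 A B C ≠ 0 := by
  intro h0
  apply hC
  have hΔ : ht δ B - ht δ A ≠ 0 := by
    intro h'
    have : ht δ B = ht δ A := by linarith
    rw [this] at h; nlinarith [mul_self_nonneg (ht δ C - ht δ A)]
  have sq : 0 < (ht δ B - ht δ A) ^ 2 := by positivity
  have k : ∀ x : ℝ, 0 ≤ x * (ht δ B - ht δ A) → 0 ≤ x / (ht δ B - ht δ A) := fun x hx => by
    rw [show x / (ht δ B - ht δ A) = x * (ht δ B - ht δ A) / (ht δ B - ht δ A) ^ 2 by field_simp]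
    positivity
  refine ⟨(ht δ B - ht δ C) / (ht δ B - ht δ A), (ht δ C - ht δ A) / (ht δ B - ht δ A),
    k _ (by nlinarith [mul_self_nonneg (ht δ B - ht δ C)]),
    k _ (by nlinarith [mul_self_nonneg (ht δ C - ht δ A)]), by field_simp; ring, ?_⟩
  unfold det2 at h0
  ext
  · simp only [pr, Prod.fst_add, Prod.smul_fst, smul_eq_mul]
    field_simp
    unfold ht
    linear_combination h0
  · simp only [pr, Prod.snd_add, Prod.smul_snd, smul_eq_mul]
    field_simp
    unfold ht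
    linear_combination (-δ) * h0

noncomputable def rayP (δ : ℝ) (s : Pt × Pt) (X : Pt) : ℤ :=
  ray (ht δ s.1) (ht δ s.2) (ht δ X) (det2 s.1 s.2 X)

theorem seg_core (δ : ℝ) (A B C D : Pt) (hd : Disjoint (segment ℝ A B) (segment ℝ C D))
    (hC : pr C ∉ segment ℝ (pr A) (pr B)) (hD : pr D ∉ segment ℝ (pr A) (pr B))
    (hA : pr A ∉ segment ℝ (pr C) (pr D)) (hB : pr B ∉ segment ℝ (pr C) (pr D))
    (h1 : ht δ C ≠ ht δ A) (h2 : ht δ D ≠ ht δ A) (h3 : ht δ C ≠ ht δ B) (h4 : ht δ D ≠ ht δ B) :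
    2 ∣ crossSign (A, B) (C, D) - (rayP δ (A, B) C - rayP δ (A, B) D +
      (rayP δ (C, D) A - rayP δ (C, D) B) + ((ord (ht δ C) (ht δ A) - ord (ht δ D) (ht δ A)) -
        (ord (ht δ C) (ht δ B) - ord (ht δ D) (ht δ B)))) := by
  have := real_core (ht δ A) (ht δ B) (ht δ C) (ht δ D) (det2 A B C) (det2 A B D) (det2 C D A)
    (det2 C D B) h1 h2 h3 h4 (det_ne δ A B C hC) (det_ne δ A B D hD) (det_ne δ C D A hA)
    (det_ne δ C D B hB) (by unfold det2; ring) (by unfold det2 ht; ring)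
  unfold crossSign rayP
  simp only
  split_ifs at this ⊢ with hc
  · have h0 := triple_ne A B C D hd hc.1 hc.2
    rcases lt_or_gt_of_ne h0 with h0 | h0
    · rw [sign_neg h0]; simp only [SignType.coe_neg_one]; omega
    · rw [sign_pos h0]; simp only [SignType.coe_one]; omega
  · omega

end Pool.Agent.H.MP_720da9_gt
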