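import Pool.Agent.H.MP_720da9_gt.Abs

namespace Pool.Agent.H.MP_720da9_gt

theorem ev_of (w : ℕ → ℕ → ℕ → ℕ → ℤ) (F : ℕ → ℕ → ℕ → ℤ) (o : ℕ → ℕ → ℤ)
    (hp : ∀ i j k l, good [i, j, k, l] → 2 ∣ w i j k l - (F i j k - F i j l + (F k l i - F k l j) +
      ((o k i - o l i) - (o k j - o l j))))
    (a b c d e f : ℕ) (hg : good [a, b, c, d, e, f]) : 2 ∣ lk2 w [a, b, c] [d, e, f] := by
  have sub : ∀ l : List ℕ, l.Nodup → (∀ x ∈ l, x < 6) →
      good (l.map fun n => [a, b, c, d, e, f].getD n 0) := fun l h1 h2 =>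
    good_map [] 6 (fun n => [a, b, c, d, e, f].getD n 0) hg l h1 h2
  have := hp a b d e (sub [0, 1, 3, 4] (by decide) (by decide))
  have := hp a b e f (sub [0, 1, 4, 5] (by decide) (by decide))
  have := hp a b f d (sub [0, 1, 5, 3] (by decide) (by decide))
  have := hp b c d e (sub [1, 2, 3, 4] (by decide) (by decide))
  have := hp b c e f (sub [1, 2, 4, 5] (by decide) (by decide))
  have := hp b c f d (sub [1, 2, 5, 3] (by decide) (by decide))
  have := hp c a d e (sub [2, 0, 3, 4] (by decide) (by decide))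
  have := hp c a e f (sub [2, 0, 4, 5] (by decide) (by decide))
  have := hp c a f d (sub [2, 0, 5, 3] (by decide) (by decide))
  simp only [lk2, lam, cs3]
  omega

theorem cg_of (w : ℕ → ℕ → ℕ → ℕ → ℤ) (F : ℕ → ℕ → ℕ → ℤ) (o : ℕ → ℕ → ℤ)
    (hp : ∀ i j k l, good [i, j, k, l] → 2 ∣ w i j k l - (F i j k - F i j l + (F k l i - F k l j) +
      ((o k i - o l i) - (o k j - o l j))))
    (ho : ∀ i j, good [i, j] → o i j + o j i = 1)
    (s1 : ∀ i j k l, w j i k l = - w i j k l) (s3 : ∀ i j k l, w k l i j = w i j k l)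
    (a b c d e f : ℕ) (hg : good [a, b, c, d, e, f]) :
    (lk2 w [a, b, c] [d, e, f] + lk2 w [a, b, d] [c, e, f] + lk2 w [a, b, e] [c, d, f] +
      lk2 w [a, b, f] [c, d, e] + lk2 w [a, c, d] [b, e, f] + lk2 w [a, c, e] [b, d, f] +
      lk2 w [a, c, f] [b, d, e] + lk2 w [a, d, e] [b, c, f] + lk2 w [a, d, f] [b, c, e] +
      lk2 w [a, e, f] [b, c, d]) % 4 = 2 := by
  have s2 : ∀ i j k l, w k l j i = - w k l i j := fun i j k l => by rw [s3, s1, s3 i j]
  have sub : ∀ l : List ℕ, l.Nodup → (∀ x ∈ l, x < 6) →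
      good (l.map fun n => [a, b, c, d, e, f].getD n 0) := fun l h1 h2 =>
    good_map [] 6 (fun n => [a, b, c, d, e, f].getD n 0) hg l h1 h2
  have := hp a b d e (sub [0, 1, 3, 4] (by decide) (by decide))
  have := hp a b e f (sub [0, 1, 4, 5] (by decide) (by decide))
  have := hp b c d e (sub [1, 2, 3, 4] (by decide) (by decide))
  have := hp b c e f (sub [1, 2, 4, 5] (by decide) (by decide))
  have := hp a c d f (sub [0, 2, 3, 5] (by decide) (by decide))
  have := hp a b c f (sub [0, 1, 2, 5] (by decide) (by decide))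
  have := hp b d c e (sub [1, 3, 2, 4] (by decide) (by decide))
  have := hp a d e f (sub [0, 3, 4, 5] (by decide) (by decide))
  have := hp a d c f (sub [0, 3, 2, 5] (by decide) (by decide))
  have := hp a b c d (sub [0, 1, 2, 3] (by decide) (by decide))
  have := hp b e c d (sub [1, 4, 2, 3] (by decide) (by decide))
  have := hp b e c f (sub [1, 4, 2, 5] (by decide) (by decide))
  have := hp a e d f (sub [0, 4, 3, 5] (by decide) (by decide))
  have := hp b f c e (sub [1, 5, 2, 4] (by decide) (by decide))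
  have := hp a f c d (sub [0, 5, 2, 3] (by decide) (by decide))
  have := hp a f d e (sub [0, 5, 3, 4] (by decide) (by decide))
  have := hp a c b f (sub [0, 2, 1, 5] (by decide) (by decide))
  have := hp c d e f (sub [2, 3, 4, 5] (by decide) (by decide))
  have := hp a d b e (sub [0, 3, 1, 4] (by decide) (by decide))
  have := hp a c b d (sub [0, 2, 1, 3] (by decide) (by decide))
  have := hp c e d f (sub [2, 4, 3, 5] (by decide) (by decide))
  have := hp a e b d (sub [0, 4, 1, 3] (by decide) (by decide))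
  have := hp a e b f (sub [0, 4, 1, 5] (by decide) (by decide))
  have := hp c f d e (sub [2, 5, 3, 4] (by decide) (by decide))
  have := hp a f b e (sub [0, 5, 1, 4] (by decide) (by decide))
  have := hp a d b c (sub [0, 3, 1, 2] (by decide) (by decide))
  have := hp a f b c (sub [0, 5, 1, 2] (by decide) (by decide))
  have := ho a b (sub [0, 1] (by decide) (by decide))
  have := ho a c (sub [0, 2] (by decide) (by decide))
  have := ho a d (sub [0, 3] (by decide) (by decide))
  have := ho a e (sub [0, 4] (by decide) (by decide))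
  have := ho a f (sub [0, 5] (by decide) (by decide))
  have := ho b c (sub [1, 2] (by decide) (by decide))
  have := ho b d (sub [1, 3] (by decide) (by decide))
  have := ho b e (sub [1, 4] (by decide) (by decide))
  have := ho b f (sub [1, 5] (by decide) (by decide))
  have := ho c d (sub [2, 3] (by decide) (by decide))
  have := ho c e (sub [2, 4] (by decide) (by decide))
  have := ho c f (sub [2, 5] (by decide) (by decide))
  have := ho d e (sub [3, 4] (by decide) (by decide))
  have := ho d f (sub [3, 5] (by decide) (by decide))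
  have := ho e f (sub [4, 5] (by decide) (by decide))
  simp only [lk2, lam, cs3, s1 a c, s1 a d, s1 a e, s1 a f, s2 b d, s2 b e, s2 b f, s2 c e, s2 c f, s2 d f, s3 b c d e, s3 b c e f, s3 b c d f, s3 b d c e, s3 b d e f, s3 b d c f, s3 b e c d, s3 b e d f, s3 b e c f, s3 b f c d, s3 b f d e, s3 b f c e, s3 c d e f, s3 c e d f, s3 c f d e]
  omega

end Pool.Agent.H.MP_720da9_gt
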