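import Pool.Agent.H.MP_720da9_gt.Geo
import Pool.Agent.H.MP_720da9_gt.Par

namespace Pool.Agent.H.MP_720da9_gt

def ss (φ : Pt × Pt → ℤ) (l : List Pt) : ℤ := ((segs l).map φ).sum

theorem ss_cons (φ : Pt × Pt → ℤ) (a b : Pt) (l : List Pt) :
    ss φ (a :: b :: l) = φ (a, b) + ss φ (b :: l) := by simp [ss, segs]

theorem ss_one (φ : Pt × Pt → ℤ) (a : Pt) : ss φ [a] = 0 := by simp [ss, segs]

theorem ss_snoc (φ : Pt × Pt → ℤ) (a b : Pt) (l : List Pt) :
    ss φ (l ++ [b, a]) = ss φ (l ++ [b]) + φ (b, a) := by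
  induction l with
  | nil => simp [ss_cons, ss_one]
  | cons c l ih =>
    cases l with
    | nil => simp [ss_cons, ss_one]
    | cons d l =>
      simp only [List.cons_append, ss_cons] at ih ⊢
      rw [ih]; ring

theorem ss_rev (φ : Pt × Pt → ℤ) (h : ∀ A B, φ (B, A) = - φ (A, B)) (l : List Pt) :
    ss φ l.reverse = - ss φ l := by
  induction l with
  | nil => simp [ss, segs]
  | cons a l ih =>
    cases l with
    | nil => simp [ss_one]
    | cons b l =>
      rw [List.reverse_cons] at ih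
      rw [List.reverse_cons, List.reverse_cons, List.append_assoc, List.singleton_append, ss_snoc, ih,
        ss_cons, h a b]; ring

theorem ss_tel (p : Pt → ℤ) (b : Pt) (m : List Pt) : ∀ a,
    ss (fun s => p s.1 - p s.2) (a :: (m ++ [b])) = p a - p b := by
  induction m with
  | nil => intro a; simp [ss_cons, ss_one]
  | cons c m ih => intro a; rw [List.cons_append, ss_cons, ih]; ring

theorem ss_add (φ ψ : Pt × Pt → ℤ) (l : List Pt) : ss (fun s => φ s + ψ s) l = ss φ l + ss ψ l := by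
  unfold ss; rw [List.sum_map_add]

theorem ss_neg (φ : Pt × Pt → ℤ) (l : List Pt) : ss (fun s => - φ s) l = - ss φ l := by
  unfold ss
  rw [← neg_one_mul, ← List.sum_map_mul_left]; simp

theorem ss_sub (φ ψ : Pt × Pt → ℤ) (l : List Pt) : ss (fun s => φ s - ψ s) l = ss φ l - ss ψ l := by
  simp only [sub_eq_add_neg]; rw [ss_add, ss_neg]

theorem ss_dvd (φ ψ : Pt × Pt → ℤ) (l : List Pt) (h : ∀ s ∈ segs l, 2 ∣ φ s - ψ s) :
    2 ∣ ss φ l - ss ψ l := by
  rw [← ss_sub]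
  apply List.dvd_sum
  intro x hx
  obtain ⟨s, hs, rfl⟩ := List.mem_map.1 hx
  exact h s hs

theorem mem_segs {l : List Pt} {s : Pt × Pt} (h : s ∈ segs l) : s.1 ∈ l ∧ s.2 ∈ l := by
  have := List.of_mem_zip (a := s.1) (b := s.2) h
  exact ⟨this.1, List.mem_of_mem_tail this.2⟩

theorem exists_ht (S : Finset Pt) : ∃ δ : ℝ, ∀ X ∈ S, ∀ Y ∈ S, pr X ≠ pr Y → ht δ X ≠ ht δ Y := by
  classical
  obtain ⟨δ, hδ⟩ := Infinite.exists_notMem_finset
    ((S ×ˢ S).image fun p : Pt × Pt => (p.2 1 - p.1 1) / (p.1 0 - p.2 0))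
  refine ⟨δ, fun X hX Y hY h1 h2 => ?_⟩
  unfold ht at h2
  by_cases h : X 0 = Y 0
  · apply h1
    unfold pr
    rw [h] at h2 ⊢
    rw [show X 1 = Y 1 by linarith]
  · apply hδ
    refine Finset.mem_image.2 ⟨(X, Y), Finset.mem_product.2 ⟨hX, hY⟩, ?_⟩
    have : X 0 - Y 0 ≠ 0 := sub_ne_zero.2 h
    simp only
    field_simp
    linarith

noncomputable def W (E : Spatial 9) (i j k l : Fin 9) : ℤ :=
  ss (fun s => ss (fun t => crossSign s t) (E.arc k l)) (E.arc i j)

theorem arc_rev (E : Spatial 9) (i j : Fin 9) : E.arc j i = (E.arc i j).reverse := by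
  simp [Spatial.arc, E.rev i j]

theorem W_as (E : Spatial 9) (i j k l : Fin 9) : W E j i k l = - W E i j k l := by
  unfold W
  rw [arc_rev E i j, ss_rev]
  intro A B
  rw [← ss_neg]
  simp only [cross_swap A B]

theorem W_sym (E : Spatial 9) (i j k l : Fin 9) : W E k l i j = W E i j k l := by
  unfold W ss
  rw [lsum_comm]
  simp only [cross_symm]

theorem nodup_swap {i j k l : Fin 9} (h : [i, j, k, l].Nodup) : [k, l, i, j].Nodup :=
  (List.perm_append_comm (l₁ := [i, j]) (l₂ := [k, l])).nodup_iff.1 h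

theorem ht_ne (E : Spatial 9) (hr : E.Regular) (δ : ℝ)
    (hδ : ∀ i j k l, ∀ X ∈ E.arc i j, ∀ Y ∈ E.arc k l, pr X ≠ pr Y → ht δ X ≠ ht δ Y)
    {i j k l : Fin 9} (h : [i, j, k, l].Nodup) {s : Pt × Pt} (hs : s ∈ segs (E.arc i j)) {X : Pt}
    (hX : X ∈ E.arc k l) : ht δ X ≠ ht δ s.1 ∧ ht δ X ≠ ht δ s.2 := by
  have h1 := hr i j k l h s hs X hX
  exact ⟨hδ _ _ _ _ X hX _ (mem_segs hs).1 fun e => h1 (e ▸ left_mem_segment ℝ _ _),
    hδ _ _ _ _ X hX _ (mem_segs hs).2 fun e => h1 (e ▸ right_mem_segment ℝ _ _)⟩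

theorem W_par (E : Spatial 9) (ha : E.Apart) (hr : E.Regular) (δ : ℝ)
    (hδ : ∀ i j k l, ∀ X ∈ E.arc i j, ∀ Y ∈ E.arc k l, pr X ≠ pr Y → ht δ X ≠ ht δ Y)
    (i j k l : Fin 9) (h : [i, j, k, l].Nodup) :
    2 ∣ W E i j k l - (ss (fun s => rayP δ s (E.vert k)) (E.arc i j) -
      ss (fun s => rayP δ s (E.vert l)) (E.arc i j) +
      (ss (fun s => rayP δ s (E.vert i)) (E.arc k l) - ss (fun s => rayP δ s (E.vert j)) (E.arc k l)) +
      ((ord (ht δ (E.vert k)) (ht δ (E.vert i)) - ord (ht δ (E.vert l)) (ht δ (E.vert i))) -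
        (ord (ht δ (E.vert k)) (ht δ (E.vert j)) - ord (ht δ (E.vert l)) (ht δ (E.vert j))))) := by
  have t1 := ss_tel (fun X => ss (fun t => rayP δ t X) (E.arc k l)) (E.vert j) (E.mid i j) (E.vert i)
  have t2 := ss_tel (fun X => ord (ht δ (E.vert k)) (ht δ X) - ord (ht δ (E.vert l)) (ht δ X))
    (E.vert j) (E.mid i j) (E.vert i)
  change ss _ (E.arc i j) = _ at t1 t2
  rw [← t1, ← t2, ← ss_sub, ← ss_add, ← ss_add]
  apply ss_dvd
  rintro ⟨A, B⟩ hs
  have u1 := ss_tel (fun X => rayP δ (A, B) X) (E.vert l) (E.mid k l) (E.vert k)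
  have u2 := ss_tel (fun X => ord (ht δ X) (ht δ A)) (E.vert l) (E.mid k l) (E.vert k)
  have u3 := ss_tel (fun X => ord (ht δ X) (ht δ B)) (E.vert l) (E.mid k l) (E.vert k)
  change ss _ (E.arc k l) = _ at u1 u2 u3
  simp only
  rw [← u1, ← u2, ← u3, ← ss_sub, ← ss_sub, ← ss_add, ← ss_add]
  apply ss_dvd
  rintro ⟨C, D⟩ ht'
  have hC := ht_ne E hr δ hδ h hs (mem_segs ht').1
  have hD := ht_ne E hr δ hδ h hs (mem_segs ht').2
  exact seg_core δ A B C D (ha i j k l h _ hs _ ht') (hr i j k l h _ hs _ (mem_segs ht').1)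
    (hr i j k l h _ hs _ (mem_segs ht').2) (hr k l i j (nodup_swap h) _ ht' _ (mem_segs hs).1)
    (hr k l i j (nodup_swap h) _ ht' _ (mem_segs hs).2) hC.1 hD.1 hC.2 hD.2

theorem ord_sum {x y : ℝ} (h : x ≠ y) : ord x y + ord y x = 1 := by
  unfold ord oS
  rcases lt_or_gt_of_ne h with h | h
  · rw [sign_pos (sub_pos.2 h), sign_neg (sub_neg.2 h)]; decide
  · rw [sign_neg (sub_neg.2 h), sign_pos (sub_pos.2 h)]; decide

theorem ext4 : ∀ a b : Fin 9, a ≠ b → ∃ j l : Fin 9, [a, j, b, l].Nodup := by decide +kernel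

theorem vert_ne (E : Spatial 9) (hr : E.Regular) (δ : ℝ)
    (hδ : ∀ i j k l, ∀ X ∈ E.arc i j, ∀ Y ∈ E.arc k l, pr X ≠ pr Y → ht δ X ≠ ht δ Y)
    {a b : Fin 9} (h : a ≠ b) : ht δ (E.vert a) ≠ ht δ (E.vert b) := by
  obtain ⟨j, l, h1⟩ := ext4 a b h
  obtain ⟨Y, hY⟩ : ∃ Y, (E.vert a, Y) ∈ segs (E.arc a j) := by
    unfold Spatial.arc segs
    cases E.mid a j with
    | nil => exact ⟨_, List.mem_cons_self⟩
    | cons c m => exact ⟨_, List.mem_cons_self⟩
  exact (ht_ne E hr δ hδ h1 hY (X := E.vert b) List.mem_cons_self).1.symm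

def fin9 (i : ℕ) : Fin 9 := ⟨i % 9, Nat.mod_lt _ (by decide)⟩

theorem nodup9 {l : List ℕ} (h : good l) : (l.map fin9).Nodup :=
  List.Nodup.map_on (fun x hx y hy e => by
    have h1 := h.2 x hx
    have h2 := h.2 y hy
    have : x % 9 = y % 9 := congrArg Fin.val e
    omega) h.1

theorem sum_flat {α β : Type} (f : α → List β) (g : β → ℤ) (l : List α) :
    ((l.flatMap f).map g).sum = (l.map fun x => ((f x).map g).sum).sum := by
  induction l with
  | nil => simp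
  | cons a l ih => simp only [List.flatMap_cons, List.map_append, List.sum_append, ih, List.map_cons,
      List.sum_cons]

theorem linking_eq (E : Spatial 9) (C D : List (Fin 9)) :
    linking (E.polygon C) (E.polygon D) = (cs (fun k l => cs (fun i j => W E i j k l) C) D : ℤ) / 2 := by
  unfold linking Spatial.polygon
  congr 2
  rw [sum_flat]
  simp only [sum_flat]
  unfold cs W ss
  rw [lsum_comm (fun a : Fin 9 × Fin 9 => fun b : Fin 9 × Fin 9 => _) (cyc D) (cyc C)]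
  congr 1
  apply List.map_congr_left
  intro e _
  rw [lsum_comm]

theorem HH_of (E : Spatial 9) (ha : E.Apart) (hr : E.Regular)
    (hb : ∀ C D : List (Fin 9), 3 ≤ C.length → 3 ≤ D.length → (C ++ D).Nodup →
      |linking (E.polygon C) (E.polygon D)| < 2) :
    HH fun i j k l => W E (fin9 i) (fin9 j) (fin9 k) (fin9 l) := by
  classical
  obtain ⟨S, hS⟩ : ∃ S : Finset Pt, ∀ i j, ∀ X ∈ E.arc i j, X ∈ S := by
    refine ⟨Finset.univ.biUnion fun i : Fin 9 => Finset.univ.biUnion fun j : Fin 9 =>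
      (E.arc i j).toFinset, fun i j X hX => ?_⟩
    rw [Finset.mem_biUnion]
    refine ⟨i, Finset.mem_univ _, ?_⟩
    rw [Finset.mem_biUnion]
    exact ⟨j, Finset.mem_univ _, List.mem_toFinset.2 hX⟩
  obtain ⟨δ, hδ0⟩ := exists_ht S
  have hδ : ∀ i j k l, ∀ X ∈ E.arc i j, ∀ Y ∈ E.arc k l, pr X ≠ pr Y → ht δ X ≠ ht δ Y :=
    fun i j k l X hX Y hY => hδ0 X (hS i j X hX) Y (hS k l Y hY)
  have hp := fun i j k l (h : good [i, j, k, l]) =>
    W_par E ha hr δ hδ (fin9 i) (fin9 j) (fin9 k) (fin9 l) (nodup9 h)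
  refine ⟨fun i j k l => W_as _ _ _ _ _, fun i j k l => W_sym _ _ _ _ _, ?_, ?_, ?_⟩
  · intro C D h1 h2 h3
    have := hb (C.map fin9) (D.map fin9) (by simpa) (by simpa)
      (by rw [← List.map_append]; exact nodup9 h3)
    rw [linking_eq, cs_map] at this
    simp only [cs_map] at this
    change |((lk2 (fun i j k l => W E (fin9 i) (fin9 j) (fin9 k) (fin9 l)) C D : ℤ) : ℚ) / 2| < 2 at this
    generalize lk2 _ C D = x at this
    rw [abs_lt] at this ⊢
    constructor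
    · have : ((-4 : ℤ) : ℚ) < x := by push_cast; linarith [this.1]
      exact_mod_cast this
    · have : (x : ℚ) < ((4 : ℤ) : ℚ) := by push_cast; linarith [this.2]
      exact_mod_cast this
  · exact ev_of _ (fun i j k => ss (fun s => rayP δ s (E.vert (fin9 k))) (E.arc (fin9 i) (fin9 j)))
      (fun k i => ord (ht δ (E.vert (fin9 k))) (ht δ (E.vert (fin9 i)))) hp
  · refine cg_of _ (fun i j k => ss (fun s => rayP δ s (E.vert (fin9 k))) (E.arc (fin9 i) (fin9 j)))
      (fun k i => ord (ht δ (E.vert (fin9 k))) (ht δ (E.vert (fin9 i)))) hp ?_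
      (fun i j k l => W_as _ _ _ _ _) (fun i j k l => W_sym _ _ _ _ _)
    intro i j h
    apply ord_sum
    apply vert_ne E hr δ hδ
    have := nodup9 h
    simpa using this

end Pool.Agent.H.MP_720da9_gt
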