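import Pool.Agent.H.MP_720da9_gt.Chk

namespace Pool.Agent.H.MP_720da9_gt

def LEMS : List (List Lit) := [
[⟨0,1,2,3,4,6,2,true⟩, ⟨0,1,2,3,5,7,2,true⟩, ⟨0,1,2,3,4,8,2,true⟩, ⟨0,2,6,3,4,8,1,true⟩, ⟨0,1,6,3,4,8,2,true⟩, ⟨0,1,6,3,5,8,2,true⟩, ⟨0,1,6,3,4,7,1,true⟩, ⟨1,2,6,3,4,7,1,true⟩, ⟨0,2,6,5,7,8,1,true⟩, ⟨1,2,4,3,5,8,2,true⟩, ⟨0,2,8,1,4,6,2,false⟩, ⟨0,3,5,2,4,6,1,true⟩],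
[⟨0,1,2,3,4,6,2,true⟩, ⟨0,1,2,3,5,7,2,true⟩, ⟨0,1,2,3,4,8,2,true⟩, ⟨0,2,6,3,4,8,1,true⟩, ⟨0,1,6,3,4,8,2,true⟩, ⟨0,1,6,3,5,8,2,true⟩, ⟨0,1,6,3,4,7,1,true⟩, ⟨1,2,6,3,4,7,1,true⟩, ⟨0,2,6,5,7,8,1,true⟩, ⟨1,2,4,3,5,8,2,false⟩, ⟨2,5,6,3,7,8,0,false⟩, ⟨0,2,5,3,7,8,1,true⟩, ⟨0,2,5,3,4,8,0,true⟩, ⟨1,2,7,3,5,8,1,true⟩, ⟨0,2,5,1,3,8,2,false⟩, ⟨0,2,5,1,4,6,0,false⟩, ⟨0,4,7,3,5,8,2,false⟩, ⟨0,5,6,1,2,8,2,false⟩],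
[⟨0,1,2,3,4,6,2,true⟩, ⟨0,1,2,3,5,7,2,true⟩, ⟨0,1,2,3,4,8,2,true⟩, ⟨0,2,6,3,4,8,1,true⟩, ⟨0,1,6,3,4,8,2,true⟩, ⟨0,1,6,3,5,8,2,true⟩, ⟨0,1,6,3,4,7,1,true⟩, ⟨1,2,6,3,4,7,1,true⟩, ⟨0,2,6,5,7,8,1,true⟩, ⟨1,2,4,3,5,8,2,false⟩, ⟨2,5,6,3,7,8,0,false⟩, ⟨0,2,5,3,7,8,1,true⟩, ⟨0,2,5,3,4,8,0,false⟩, ⟨0,1,5,2,3,7,1,true⟩, ⟨0,1,5,2,7,8,1,true⟩, ⟨0,5,6,1,4,8,0,false⟩, ⟨0,1,5,2,4,7,0,false⟩, ⟨2,5,8,3,4,7,0,false⟩, ⟨0,5,6,1,2,7,0,false⟩],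
[⟨0,1,2,3,4,6,2,true⟩, ⟨0,1,2,3,5,7,2,true⟩, ⟨0,1,2,3,4,8,2,true⟩, ⟨0,2,6,3,4,8,1,true⟩, ⟨0,1,6,3,4,8,2,true⟩, ⟨0,1,6,3,5,8,2,true⟩, ⟨0,1,6,3,4,7,1,true⟩, ⟨1,2,6,3,4,7,1,true⟩, ⟨0,2,6,5,7,8,1,true⟩, ⟨1,2,4,3,5,8,2,false⟩, ⟨2,5,6,3,7,8,0,false⟩, ⟨0,2,5,3,7,8,1,true⟩],
[⟨0,1,2,3,4,6,2,true⟩, ⟨0,1,2,3,5,7,2,true⟩, ⟨0,1,2,3,4,8,2,true⟩, ⟨0,2,6,3,4,8,1,true⟩, ⟨0,1,6,3,4,8,2,true⟩, ⟨0,1,6,3,5,8,2,true⟩, ⟨0,1,6,3,4,7,1,true⟩, ⟨1,2,6,3,4,7,1,true⟩, ⟨0,2,6,5,7,8,1,true⟩],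
[⟨0,1,2,3,4,6,2,true⟩, ⟨0,1,2,3,5,7,2,true⟩, ⟨0,1,2,3,4,8,2,true⟩, ⟨0,2,6,3,4,8,1,true⟩, ⟨0,1,6,3,4,8,2,true⟩, ⟨0,1,6,3,5,8,2,true⟩, ⟨0,1,6,3,4,7,1,true⟩, ⟨1,2,6,3,4,7,1,true⟩, ⟨0,2,6,5,7,8,1,false⟩, ⟨2,3,6,4,7,8,1,true⟩, ⟨1,4,6,5,7,8,2,false⟩, ⟨1,6,7,4,5,8,2,false⟩, ⟨1,6,7,4,5,8,1,true⟩, ⟨0,2,7,4,5,8,0,false⟩, ⟨0,1,7,4,5,8,1,true⟩, ⟨1,2,8,4,5,7,2,false⟩, ⟨1,2,8,4,5,7,0,false⟩, ⟨0,1,8,4,5,7,0,false⟩, ⟨0,1,8,4,5,7,2,false⟩, ⟨0,2,5,3,7,8,2,false⟩, ⟨0,1,4,3,7,8,2,false⟩, ⟨2,5,7,3,4,6,0,false⟩, ⟨1,5,8,3,4,6,2,false⟩, ⟨0,2,6,1,4,7,1,false⟩, ⟨1,3,8,4,5,7,1,true⟩, ⟨0,2,3,4,5,7,0,false⟩, ⟨0,3,6,4,5,7,0,false⟩,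 ⟨0,3,6,4,5,8,2,false⟩, ⟨0,3,6,4,5,8,1,true⟩, ⟨3,4,5,6,7,8,2,false⟩],
[⟨0,1,2,3,4,6,2,true⟩, ⟨0,1,2,3,5,7,2,true⟩, ⟨0,1,2,3,4,8,2,true⟩, ⟨0,2,6,3,4,8,1,true⟩, ⟨0,1,6,3,4,8,2,true⟩, ⟨0,1,6,3,5,8,2,true⟩, ⟨0,1,6,3,4,7,1,true⟩, ⟨1,2,6,3,4,7,1,true⟩, ⟨0,2,6,5,7,8,1,false⟩, ⟨2,3,6,4,7,8,1,true⟩, ⟨1,4,6,5,7,8,2,false⟩, ⟨1,6,7,4,5,8,2,false⟩, ⟨1,6,7,4,5,8,1,true⟩, ⟨0,2,7,4,5,8,0,false⟩, ⟨0,1,7,4,5,8,1,true⟩, ⟨1,2,8,4,5,7,2,false⟩, ⟨1,2,8,4,5,7,0,false⟩, ⟨0,1,8,4,5,7,0,false⟩, ⟨0,1,8,4,5,7,2,false⟩, ⟨0,2,5,3,7,8,2,false⟩, ⟨0,1,4,3,7,8,2,false⟩, ⟨2,5,7,3,4,6,0,false⟩, ⟨1,5,8,3,4,6,2,false⟩],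
[⟨0,1,2,3,4,6,2,true⟩, ⟨0,1,2,3,5,7,2,true⟩, ⟨0,1,2,3,4,8,2,true⟩, ⟨0,2,6,3,4,8,1,true⟩, ⟨0,1,6,3,4,8,2,true⟩, ⟨0,1,6,3,5,8,2,true⟩, ⟨0,1,6,3,4,7,1,true⟩, ⟨1,2,6,3,4,7,1,true⟩, ⟨0,2,6,5,7,8,1,false⟩, ⟨2,3,6,4,7,8,1,true⟩, ⟨1,4,6,5,7,8,2,false⟩, ⟨1,6,7,4,5,8,2,false⟩, ⟨1,6,7,4,5,8,1,true⟩, ⟨0,2,7,4,5,8,0,false⟩, ⟨0,1,7,4,5,8,1,true⟩, ⟨1,2,8,4,5,7,2,false⟩, ⟨1,2,8,4,5,7,0,false⟩, ⟨0,1,8,4,5,7,0,false⟩, ⟨0,1,8,4,5,7,2,false⟩],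
[⟨0,1,2,3,4,6,2,true⟩, ⟨0,1,2,3,5,7,2,true⟩, ⟨0,1,2,3,4,8,2,true⟩, ⟨0,2,6,3,4,8,1,true⟩, ⟨0,1,6,3,4,8,2,true⟩, ⟨0,1,6,3,5,8,2,true⟩, ⟨0,1,6,3,4,7,1,true⟩, ⟨1,2,6,3,4,7,1,true⟩, ⟨0,2,6,5,7,8,1,false⟩, ⟨2,3,6,4,7,8,1,true⟩, ⟨1,4,6,5,7,8,2,false⟩, ⟨1,6,7,4,5,8,2,false⟩, ⟨1,6,7,4,5,8,1,true⟩, ⟨0,2,7,4,5,8,0,false⟩],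
[⟨0,1,2,3,4,6,2,true⟩, ⟨0,1,2,3,5,7,2,true⟩, ⟨0,1,2,3,4,8,2,true⟩, ⟨0,2,6,3,4,8,1,true⟩, ⟨0,1,6,3,4,8,2,true⟩, ⟨0,1,6,3,5,8,2,true⟩, ⟨0,1,6,3,4,7,1,true⟩, ⟨1,2,6,3,4,7,1,true⟩, ⟨0,2,6,5,7,8,1,false⟩, ⟨2,3,6,4,7,8,1,true⟩],
[⟨0,1,2,3,4,6,2,true⟩, ⟨0,1,2,3,5,7,2,true⟩, ⟨0,1,2,3,4,8,2,true⟩, ⟨0,2,6,3,4,8,1,true⟩, ⟨0,1,6,3,4,8,2,true⟩, ⟨0,1,6,3,5,8,2,true⟩, ⟨0,1,6,3,4,7,1,true⟩],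
[⟨0,1,2,3,4,6,2,true⟩, ⟨0,1,2,3,5,7,2,true⟩, ⟨0,1,2,3,4,8,2,true⟩, ⟨0,2,6,3,4,8,1,true⟩, ⟨0,1,6,3,4,8,2,true⟩, ⟨0,1,6,3,5,8,2,true⟩, ⟨0,1,6,3,4,7,1,false⟩, ⟨0,1,6,2,3,8,0,true⟩, ⟨1,2,8,3,5,7,2,true⟩, ⟨1,6,8,3,4,7,2,true⟩, ⟨3,4,5,6,7,8,2,false⟩, ⟨2,7,8,3,4,5,0,false⟩, ⟨1,2,7,3,4,5,1,true⟩],
[⟨0,1,2,3,4,6,2,true⟩, ⟨0,1,2,3,5,7,2,true⟩, ⟨0,1,2,3,4,8,2,true⟩, ⟨0,2,6,3,4,8,1,true⟩, ⟨0,1,6,3,4,8,2,true⟩, ⟨0,1,6,3,5,8,2,true⟩, ⟨0,1,6,3,4,7,1,false⟩, ⟨0,1,6,2,3,8,0,true⟩, ⟨1,2,8,3,5,7,2,true⟩, ⟨1,6,8,3,4,7,2,false⟩, ⟨1,7,8,3,5,6,1,true⟩, ⟨0,6,7,3,4,5,0,false⟩, ⟨0,1,7,3,4,5,2,false⟩, ⟨0,2,5,1,6,8,2,false⟩,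 ⟨0,2,7,1,6,8,2,false⟩],
[⟨0,1,2,3,4,6,2,true⟩, ⟨0,1,2,3,5,7,2,true⟩, ⟨0,1,2,3,4,8,2,true⟩, ⟨0,2,6,3,4,8,1,true⟩, ⟨0,1,6,3,4,8,2,true⟩, ⟨0,1,6,3,5,8,2,true⟩, ⟨0,1,6,3,4,7,1,false⟩, ⟨0,1,6,2,3,8,0,true⟩, ⟨1,2,8,3,5,7,2,true⟩],
[⟨0,1,2,3,4,6,2,true⟩, ⟨0,1,2,3,5,7,2,true⟩, ⟨0,1,2,3,4,8,2,true⟩, ⟨0,2,6,3,4,8,1,true⟩, ⟨0,1,6,3,4,8,2,true⟩, ⟨0,1,6,3,5,8,2,true⟩, ⟨0,1,6,3,4,7,1,false⟩, ⟨0,1,6,2,3,8,0,false⟩, ⟨1,6,8,3,4,7,2,true⟩],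
[⟨0,1,2,3,4,6,2,true⟩, ⟨0,1,2,3,5,7,2,true⟩, ⟨0,1,2,3,4,8,2,true⟩, ⟨0,2,6,3,4,8,1,true⟩, ⟨0,1,6,3,4,8,2,true⟩, ⟨0,1,6,3,5,8,2,false⟩, ⟨0,2,6,3,5,7,1,true⟩, ⟨2,7,8,3,4,5,0,false⟩, ⟨2,7,8,3,4,5,2,false⟩],
[⟨0,1,2,3,4,6,2,true⟩, ⟨0,1,2,3,5,7,2,true⟩, ⟨0,1,2,3,4,8,2,true⟩],
[⟨0,1,2,3,4,5,2,true⟩, ⟨0,1,2,3,4,6,2,true⟩, ⟨0,1,2,3,4,7,2,true⟩, ⟨0,1,2,3,4,8,2,true⟩],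
[]]

end Pool.Agent.H.MP_720da9_gt
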