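import Pool.Agent.H.MP_720da9_gt.State

namespace Pool.Agent.H.MP_720da9_gt

def Inv (σ : ℕ → ℕ) (D : ℕ) : Prop := ∀ t < 84, D.testBit (151 * t + σ t) = true

theorem FULL_eq : FULL = 2 ^ 151 - 1 := by decide +kernel

theorem full_bit (s : ℕ) : FULL.testBit s = decide (s < 151) := by
  rw [FULL_eq, Nat.testBit_two_pow_sub_one]

theorem msk_bit (D t s : ℕ) : (msk D t).testBit s = (D.testBit (151 * t + s) && decide (s < 151)) := by
  show ((D >>> (151 * t)) &&& FULL).testBit s = _
  rw [Nat.testBit_and, Nat.testBit_shiftRight, full_bit]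

theorem land_bit (a b s : ℕ) : (Nat.land a b).testBit s = (a.testBit s && b.testBit s) :=
  Nat.testBit_and a b s

theorem xfull_bit (m s : ℕ) (hs : s < 151) : (Nat.xor FULL m).testBit s = !m.testBit s := by
  show (FULL ^^^ m).testBit s = _
  rw [Nat.testBit_xor, full_bit]; simp [hs]

theorem pm_bit (p : Bool) (m s : ℕ) (hs : s < 151) :
    (pm p m).testBit s = true ↔ (m.testBit s = true ↔ p = true) := by
  cases p
  · show (Nat.xor FULL m).testBit s = true ↔ _
    rw [xfull_bit _ _ hs]; simp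
  · show m.testBit s = true ↔ _
    simp

section
variable {w : ℕ → ℕ → ℕ → ℕ → ℤ} {σ : ℕ → ℕ}

theorem inv_msk (hs : St w σ) {D : ℕ} (h : Inv σ D) {t : ℕ} (ht : t < 84) :
    (msk D t).testBit (σ t) = true := by
  rw [msk_bit, h t ht]; simp [(hs t ht).1]

theorem inv_rem (hs : St w σ) {D : ℕ} (h : Inv σ D) (u m : ℕ)
    (hm : u < 84 → m.testBit (σ u) = false) : Inv σ (rem D u m) := by
  intro t ht
  show (D ^^^ (((msk D u) &&& m) <<< (151 * u))).testBit _ = true
  rw [Nat.testBit_xor, h t ht, Nat.testBit_shiftLeft, Nat.testBit_and, msk_bit]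
  have h1 := (hs t ht).1
  rcases lt_trichotomy t u with h2 | rfl | h2
  · have : ¬ (151 * t + σ t ≥ 151 * u) := by omega
    simp [this]
  · rw [show 151 * t + σ t - 151 * t = σ t by omega, hm ht]; simp
  · have : ¬ (151 * t + σ t - 151 * u < 151) := by omega
    simp [this]

theorem miss (hs : St w σ) {D : ℕ} (h : Inv σ D) {t : ℕ} (ht : t < 84) {m : ℕ}
    (hz : Nat.beq (Nat.land (msk D t) m) 0 = true) : m.testBit (σ t) = false := by
  have h1 := land_bit (msk D t) m (σ t)
  rw [Nat.eq_of_beq_eq_true hz, inv_msk hs h ht] at h1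
  simpa using h1

theorem ma_bit {j v s : ℕ} (hj : j < 21) (hv : v < 4) (hs : s < 151) :
    (msk MAX (j * 4 + v)).testBit s = true ↔ 1 ≤ j ∧ V s j = v := by
  have h := allLt_spec (allLt_spec c_MA j hj) s hs
  rw [Bool.and_eq_true] at h
  have h2 := allLt_spec h.2 v hv
  rw [beq_iff_eq, bit_eq] at h2
  rw [h2, Bool.and_eq_true, Nat.ble_eq, Nat.beq_eq]

theorem V_le {j s : ℕ} (hj : j < 21) (hs : s < 151) : V s j ≤ 2 := by
  have h := allLt_spec (allLt_spec c_MA j hj) s hs
  rw [Bool.and_eq_true, Nat.ble_eq] at h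
  exact h.1

theorem pdj (t u : ℕ) (ht : t < 128) (hu : u < 128) : PDJ t u (tab DJX 10 (t * 128 + u)) :=
  of_decide_eq_true (allLt_spec (allLt_spec c_DJ t ht) u hu)

theorem dj_sem (h : HH w) (hs : St w σ) {t u e : ℕ} (hp : PDJ t u e) (he : e ≠ 0) :
    t < 84 ∧ u < 84 ∧ e % 32 < 21 ∧ e / 32 < 21 ∧ 1 ≤ e % 32 ∧ 1 ≤ e / 32 ∧
      lk2 w (T t) (T u) = 2 * (V (σ t) (e % 32) : ℤ) - 2 ∧
      lk2 w (T t) (T u) = 2 * (V (σ u) (e / 32) : ℤ) - 2 := by
  rcases hp with hp | ⟨h1, h2, h3, h4, h5, h6, h7, h8⟩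
  · exact absurd hp he
  refine ⟨h1, h2, by omega, by omega, h3, h5, ?_, ?_⟩
  · rw [← h7]; exact (hs t h1).2 _ h3 h4
  · rw [lk2_symm h, ← h8]; exact (hs u h2).2 _ h5 h6

theorem st0_sound (h : HH w) (hs : St w σ) {D : ℕ} (hD : Inv σ D) (tu v : ℕ) (htu : tu < 16384)
    (hv : v < 4) : Inv σ (st0 D tu v (tab DJX 10 tu)) := by
  have hp := pdj (tu / 128) (tu % 128) (by omega) (by omega)
  rw [show tu / 128 * 128 + tu % 128 = tu by omega] at hp
  generalize tab DJX 10 tu = e at hp
  unfold st0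
  cases hz : Nat.beq _ 0
  · exact hD
  · refine inv_rem hs hD _ _ fun hu => ?_
    change (msk MAX (e / 32 * 4 + v)).testBit (σ (tu % 128)) = false
    have hu' : tu % 128 < 84 := hu
    rw [Bool.eq_false_iff]
    intro hb
    by_cases he : e = 0
    · subst he
      have := (ma_bit (j := 0) (by omega) hv (hs _ hu').1).1 hb
      omega
    · obtain ⟨h1, h2, h3, h4, h5, h6, h7, h8⟩ := dj_sem h hs hp he
      have h9 := ((ma_bit h4 hv (hs _ h2).1).1 hb).2
      have h10 : (msk MAX (e % 32 * 4 + v)).testBit (σ (tu / 128)) = false := miss hs hD h1 hz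
      rw [(ma_bit h3 hv (hs _ h1).1).2 ⟨h5, by omega⟩] at h10
      exact absurd h10 (by simp)

theorem st1_sound (h : HH w) (hs : St w σ) {D : ℕ} (hD : Inv σ D) (tu k : ℕ) (htu : tu < 16384)
    (hk : k < 64) : Inv σ (st1 D tu k (tab EJX 8 tu)) := by
  have hp : PEJ _ _ _ := of_decide_eq_true
    (allLt_spec (allLt_spec c_EJ (tu / 128) (by omega)) (tu % 128) (by omega))
  rw [show tu / 128 * 128 + tu % 128 = tu by omega] at hp
  generalize tab EJX 8 tu = e at hp
  unfold st1
  cases hz : Nat.beq _ 0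
  · exact hD
  · refine inv_rem hs hD _ _ fun hu => ?_
    change (msk M2X (e / 16 * 64 + k)).testBit (σ (tu % 128)) = false
    change Nat.beq (Nat.land (msk D (tu / 128)) (msk M1X (e % 16 * 64 + k))) 0 = true at hz
    generalize tu / 128 = t at hp hz
    generalize tu % 128 = u at hp
    rw [Bool.eq_false_iff]
    intro hb
    rcases hp with rfl | ⟨ht, hu, h1, h2, h3, h4, x, -, y, -, h5, h6, h7⟩
    · have := Nat.eq_of_beq_eq_true (allLt_spec c_M0 k hk)
      rw [show 0 / 16 * 64 + k = k by omega, this] at hb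
      simp at hb
    obtain ⟨ip, hip⟩ : ∃ ip, e / 16 = ip + 1 := ⟨e / 16 - 1, by omega⟩
    rw [hip] at hb
    rw [show e / 16 - 1 = ip by omega] at h4 h5 h7
    have hm := miss hs hD ht hz
    generalize hiq : e % 16 / 2 = iq at h4 h6 h7
    have hiq6 : iq < 6 := by omega
    have hip6 : ip < 6 := by omega
    have hM2 := allLt_spec (allLt_spec c_M2 ip hip6) (σ u) (hs u hu).1
    rw [force_eq] at hM2
    have hM2' := imp_spec (allLt_spec hM2 k hk) (by rw [bit_eq]; exact hb)
    rw [Bool.and_eq_true, Nat.blt_eq, Nat.beq_eq] at hM2'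
    have hM1 := allLt_spec (allLt_spec c_M1 iq hiq6) (σ t) (hs t ht).1
    rw [force_eq] at hM1
    have hM1' := allLt_spec hM1 k hM2'.1
    rw [Bool.and_eq_true] at hM1'
    obtain ⟨a1, a2, a3, a4, a5, a6, a7⟩ : PRJ iq := of_decide_eq_true (allLt_spec c_RJ iq hiq6)
    obtain ⟨b1, b2, b3, b4, b5, b6, b7⟩ : PRJ ip := of_decide_eq_true (allLt_spec c_RJ ip hip6)
    set p := cmp u ip
    set q := cmp t iq
    set r : ℕ → ℕ := fun z => cmp t (sk iq z) with hr
    have hbd : ∀ l : List ℕ, 3 ≤ l.length → l.Nodup → (∀ x ∈ l, x < 5) →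
        |cs (lam w [y, p, x, q]) (l.map r)| < 4 := fun l h1 h2 h3 =>
      h.bd [y, p, x, q] (l.map r) (by simp) (by simpa) (good_map _ 5 _ h7 l h2 h3)
    have key : ∀ η : ℤ, (∀ k l, lam w [y, p, x, q] k l = lam w (T t) k l + η * lam w (T u) k l) →
        ∀ n : ℕ, (n : ℤ) = RC iq (σ t) + η * (RC ip (σ u) - 7812) → bit OKT n = true := by
      intro η hη n hn
      have hl : ∀ z < 6, ∀ l : List ℕ, LT (RJ iq z) = l.map (sk iq) → LT (RJ ip z) = l.map (sk ip) →
          (∀ a ∈ l, a < 5) → cs (lam w [y, p, x, q]) (l.map r) =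
            2 * ((V (σ t) (RJ iq z) : ℤ) - 1 + η * ((V (σ u) (RJ ip z) : ℤ) - 1)) := by
        intro z hz l e1 e2 e3
        have f1 := (hs t ht).2 _ (a7 z hz).1 (a7 z hz).2
        have f2 := (hs u hu).2 _ (b7 z hz).1 (b7 z hz).2
        rw [e1, List.map_map] at f1
        rw [e2, List.map_map, show l.map (cmp u ∘ sk ip) = l.map r from
          List.map_congr_left fun a ha => (h4 a (e3 a ha)).symm] at f2
        rw [show lam w [y, p, x, q] = fun k l => lam w (T t) k l + η * lam w (T u) k l from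
          funext fun k => funext fun l => hη k l, cs_add, cs_mul]
        unfold lk2 at f1 f2
        change cs _ (l.map r) = _ at f1
        rw [f1, f2]; ring
      have g1 := hl 0 (by omega) _ a1 b1 (by decide)
      have g2 := hl 1 (by omega) _ a2 b2 (by decide)
      have g3 := hl 2 (by omega) _ a3 b3 (by decide)
      have g4 := hl 3 (by omega) _ a4 b4 (by decide)
      have g5 := hl 4 (by omega) _ a5 b5 (by decide)
      have g6 := hl 5 (by omega) _ a6 b6 (by decide)
      obtain ⟨d1, l1, k1⟩ := dig g1 (hbd _ (by decide) (by decide) (by decide))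
      obtain ⟨d2, l2, k2⟩ := dig g2 (hbd _ (by decide) (by decide) (by decide))
      obtain ⟨d3, l3, k3⟩ := dig g3 (hbd _ (by decide) (by decide) (by decide))
      obtain ⟨d4, l4, k4⟩ := dig g4 (hbd _ (by decide) (by decide) (by decide))
      obtain ⟨d5, l5, k5⟩ := dig g5 (hbd _ (by decide) (by decide) (by decide))
      obtain ⟨d6, l6, k6⟩ := dig g6 (hbd _ (by decide) (by decide) (by decide))
      rw [k1] at g1; rw [k2] at g2; rw [k3] at g3; rw [k4] at g4; rw [k5] at g5; rw [k6] at g6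
      have := s5lem (lam w [y, p, x, q]) (lam_as h _) r hbd d1 d2 d3 d4 d5 d6 l1 l2 l3 l4 l5 l6
        g1 g2 g3 g4 g5 g6
      have e : n = code5 d1 d2 d3 d4 d5 d6 := by
        have : (n : ℤ) = code5 d1 d2 d3 d4 d5 d6 := by
          rw [hn]
          unfold RC code5
          unfold dg at k1 k2 k3 k4 k5 k6
          push_cast
          linear_combination k1 + 5 * k2 + 25 * k3 + 125 * k4 + 625 * k5 + 3125 * k6
        exact_mod_cast this
      rw [e]; exact this
    have hRC : ∀ i s, s < 151 → (∀ z < 6, 1 ≤ RJ i z ∧ RJ i z ≤ 20) →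
        3906 ≤ RC i s ∧ RC i s ≤ 11718 := by
      intro i s hs hz
      have c0 := V_le (j := RJ i 0) (by have := hz 0 (by omega); omega) hs
      have c1 := V_le (j := RJ i 1) (by have := hz 1 (by omega); omega) hs
      have c2 := V_le (j := RJ i 2) (by have := hz 2 (by omega); omega) hs
      have c3 := V_le (j := RJ i 3) (by have := hz 3 (by omega); omega) hs
      have c4 := V_le (j := RJ i 4) (by have := hz 4 (by omega); omega) hs
      have c5 := V_le (j := RJ i 5) (by have := hz 5 (by omega); omega) hs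
      unfold RC; omega
    have r1 := hRC iq _ (hs t ht).1 a7
    have r2 := hRC ip _ (hs u hu).1 b7
    rcases h6 with ⟨he, h6⟩ | ⟨he, h6⟩
    · have := imp_spec hM1'.1 (key (-1) (fun k l => by
        unfold lam
        rw [cs4, cs_rot _ h5, cs_rot _ h6, h.as x q, h.as y q]; ring) _ (by rw [← hM2'.2]; omega))
      rw [bit_eq, show 2 * iq = e % 16 by omega, hm] at this
      exact absurd this (by simp)
    · have := imp_spec hM1'.2 (key 1 (fun k l => by
        unfold lam
        rw [cs4, cs_rot _ h5, cs_rot _ h6, h.as x y]; ring) _ (by rw [← hM2'.2]; omega))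
      rw [bit_eq, show 2 * iq + 1 = e % 16 by omega, hm] at this
      exact absurd this (by simp)

end

end Pool.Agent.H.MP_720da9_gt
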