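import Pool.Agent.H.MP_720da9_gt.Sound

namespace Pool.Agent.H.MP_720da9_gt

section
variable {w : ℕ → ℕ → ℕ → ℕ → ℤ} {σ : ℕ → ℕ}

theorem cf_sem (h : HH w) (hs : St w σ) {D : ℕ} (hD : Inv σ D) {z : ℕ} (hz : z < 84) :
    ∀ n ≤ 10, cf D z n ≤ 10 →
      ((∑ i ∈ Finset.range n, lk2 w ((LT (i + 1)).map (cmp z)) ((LT (20 - i)).map (cmp z))) -
        2 * (cf D z n : ℤ)) % 4 = 0 := by
  intro n
  induction n with
  | zero => intro _ _; rfl
  | succ n ih =>
    intro hn
    have hp : PK6 _ _ _ := of_decide_eq_true (allLt_spec (allLt_spec c_K6 z hz) n (by omega))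
    have e : cf D z (n + 1) = cf2 D (tab K6X 14 (z * 10 + n)) (cf D z n) := rfl
    rw [e, Finset.sum_range_succ]
    generalize tab K6X 14 (z * 10 + n) = tu at hp
    obtain ⟨h1, h2, h3, h4⟩ := hp
    have hp := pdj (tu / 128) (tu % 128) (by omega) (by omega)
    rw [show tu / 128 * 128 + tu % 128 = tu by omega] at hp
    obtain ⟨g1, g2, g3, g4, g5, g6, g7, -⟩ := dj_sem h hs hp h2
    rw [← h3, ← h4, g7]
    have hb := inv_msk hs hD g1
    have hm := ma_bit (v := 1) g3 (by omega) (hs _ g1).1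
    have hV := V_le g3 (hs _ g1).1
    have hl := land_bit (msk D (tu / 128)) (msk MAX (tab DJX 10 tu % 32 * 4 + 1)) (σ (tu / 128))
    rw [hb, Bool.true_and] at hl
    have e2 : cf2 D tu (cf D z n) = cf1 (msk D (tu / 128))
      (Nat.land (msk D (tu / 128)) (msk MAX (tab DJX 10 tu % 32 * 4 + 1))) (cf D z n) := rfl
    rw [e2]
    generalize Nat.land (msk D (tu / 128)) (msk MAX (tab DJX 10 tu % 32 * 4 + 1)) = x at hl
    unfold cf1
    have ih' := ih (by omega)
    generalize cf D z n = r at ih'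
    cases hx : Nat.beq x (msk D (tu / 128))
    · cases hx0 : Nat.beq x 0
      · intro hr
        have : r + 11 ≤ 10 := hr
        omega
      · intro hr
        have hr' : r + 1 ≤ 10 := hr
        have ih2 := ih' (by omega)
        rw [Nat.eq_of_beq_eq_true hx0, Nat.zero_testBit] at hl
        have : V (σ (tu / 128)) (tab DJX 10 tu % 32) ≠ 1 := by
          intro hv
          rw [hm.2 ⟨g5, hv⟩] at hl
          exact absurd hl (by simp)
        show (_ - 2 * ((r + 1 : ℕ) : ℤ)) % 4 = 0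
        omega
    · intro hr
      have hr' : r ≤ 10 := hr
      have ih2 := ih' hr'
      rw [Nat.eq_of_beq_eq_true hx, hb] at hl
      have := (hm.1 hl.symm).2
      show (_ - 2 * ((r : ℕ) : ℤ)) % 4 = 0
      omega

theorem LT_vals : LT 1 = [0,1,2] ∧ LT 2 = [0,1,3] ∧ LT 3 = [0,1,4] ∧ LT 4 = [0,1,5] ∧
    LT 5 = [0,2,3] ∧ LT 6 = [0,2,4] ∧ LT 7 = [0,2,5] ∧ LT 8 = [0,3,4] ∧ LT 9 = [0,3,5] ∧
    LT 10 = [0,4,5] ∧ LT 11 = [1,2,3] ∧ LT 12 = [1,2,4] ∧ LT 13 = [1,2,5] ∧ LT 14 = [1,3,4] ∧
    LT 15 = [1,3,5] ∧ LT 16 = [1,4,5] ∧ LT 17 = [2,3,4] ∧ LT 18 = [2,3,5] ∧ LT 19 = [2,4,5] ∧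
    LT 20 = [3,4,5] := by decide +kernel

theorem cf_false (h : HH w) (hs : St w σ) {D : ℕ} (hD : Inv σ D) {z : ℕ} (hz : z < 84)
    (he : ev10 (cf D z 10) = true) : False := by
  unfold ev10 at he
  rw [Bool.and_eq_true, Nat.ble_eq, Nat.beq_eq] at he
  have h1 := cf_sem h hs hD hz 10 le_rfl he.1
  have h2 : cf D z 10 % 2 = 0 := he.2
  have hg : good (T z ++ (List.range 6).map (cmp z)) := of_decide_eq_true (allLt_spec c_T z hz)
  have hg2 : good [cmp z 0, cmp z 1, cmp z 2, cmp z 3, cmp z 4, cmp z 5] :=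
    ⟨(List.nodup_append.1 hg.1).2.1, fun x hx => hg.2 x (List.mem_append_right _ hx)⟩
  have h3 := h.cg _ _ _ _ _ _ hg2
  obtain ⟨e1, e2, e3, e4, e5, e6, e7, e8, e9, e10, e11, e12, e13, e14, e15, e16, e17, e18, e19, e20⟩ :=
    LT_vals
  simp only [Finset.sum_range_succ, Finset.sum_range_zero, Nat.reduceAdd, Nat.reduceSub, e1, e2, e3,
    e4, e5, e6, e7, e8, e9, e10, e11, e12, e13, e14, e15, e16, e17, e18, e19, e20, List.map_cons,
    List.map_nil] at h1
  omega

theorem st2_sound (h : HH w) (hs : St w σ) {D : ℕ} (hD : Inv σ D) (u m z : ℕ) :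
    Inv σ (st2 D u m z) := by
  unfold st2
  cases hc : and _ _
  · exact hD
  · rw [Bool.and_eq_true, Nat.blt_eq] at hc
    refine inv_rem hs hD _ _ fun hu => ?_
    rw [Bool.eq_false_iff]
    intro hb
    refine cf_false h hs (inv_rem hs hD u _ fun _ => ?_) hc.1 hc.2
    rw [xfull_bit _ _ (hs u hu).1, hb]; rfl

def sgn (s : ℕ) : ℤ := if s % 2 = 0 then 1 else -1

theorem pt_sem (h : HH w) {a b c : ℕ} (ha : a < 16) (hb : b < 16) (hc : c < 16)
    (hp : pt a b c / 2 < 84) (D : List ℕ) :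
    lk2 w D [a, b, c] = sgn (pt a b c) * lk2 w D (T (pt a b c / 2)) := by
  have h1 : PPT _ _ _ _ := of_decide_eq_true (allLt_spec (allLt_spec (allLt_spec c_PT a ha) b hb) c hc)
  unfold lk2 sgn
  rcases h1 hp with ⟨e, h2⟩ | ⟨e, h2⟩
  · rw [cs_rot _ h2, cs3, if_pos e]; ring
  · rw [cs_rot _ h2, cs3, if_neg (by omega), lam_as h D a b, lam_as h D c a, lam_as h D b c]; ring

theorem pt_lt (a b c : ℕ) : pt a b c < 256 := Nat.mod_lt _ (by decide)

theorem lv_sem (h : HH w) (hs : St w σ) {a b c d e f : ℕ} (ha : a < 16) (hb : b < 16) (hc : c < 16)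
    (hd : d < 16) (he : e < 16) (hf : f < 16) (v sg : ℕ) (k : ℕ → ℕ → ℕ → ℕ → ℕ) (fail : ℕ) :
    lv (pt a b c) (pt d e f) v sg k fail = fail ∨ ∃ t u i j, t < 84 ∧ u < 84 ∧
      lv (pt a b c) (pt d e f) v sg k fail = k t u i j ∧
      ((msk MAX i).testBit (σ t) = true ↔ sgn sg * lk2 w [a, b, c] [d, e, f] = 2 * (v : ℤ) - 2) ∧
      ((msk MAX j).testBit (σ u) = true ↔ sgn sg * lk2 w [a, b, c] [d, e, f] = 2 * (v : ℤ) - 2) := by
  have p1 := pt_lt a b c
  have p2 := pt_lt d e f
  have q1 := pt_sem h ha hb hc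
  have q2 := pt_sem h hd he hf
  generalize pt a b c = p at *
  generalize pt d e f = q at *
  have hp := pdj (p / 2) (q / 2) (by omega) (by omega)
  have e0 : lv p q v sg k fail = lv2 (p / 2) (q / 2) (tab DJX 10 (p / 2 * 128 + q / 2))
    (cond (Nat.beq ((p + q + sg) % 2) 0) v (2 - v)) (Nat.ble 3 v) k fail := rfl
  rw [e0]
  generalize tab DJX 10 (p / 2 * 128 + q / 2) = E at hp
  unfold lv2
  cases hz : or _ _
  · right
    rw [Bool.or_eq_false_iff] at hz
    have hE : E ≠ 0 := by
      rintro rfl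
      exact absurd hz.1 (by decide)
    have hv : v < 3 := by
      by_contra hv
      rw [show Nat.ble 3 v = true by rw [Nat.ble_eq]; omega] at hz
      exact absurd hz.2 (by simp)
    obtain ⟨g1, g2, g3, g4, g5, g6, g7, g8⟩ := dj_sem h hs hp hE
    have e1 : lk2 w [a, b, c] [d, e, f] = sgn p * sgn q * lk2 w (T (p / 2)) (T (q / 2)) := by
      rw [q2 g2, lk2_symm h, q1 g1, lk2_symm h]; ring
    refine ⟨_, _, _, _, g1, g2, rfl, ?_, ?_⟩
    · change (msk MAX (E % 32 * 4 + _)).testBit _ = true ↔ _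
      have hV := V_le g3 (hs _ g1).1
      rw [e1, g7]
      cases hq : Nat.beq ((p + q + sg) % 2) 0
      · have hq' := Nat.ne_of_beq_eq_false hq
        rw [cond_false, ma_bit g3 (by omega) (hs _ g1).1]
        unfold sgn; split_ifs <;> omega
      · have hq' := Nat.eq_of_beq_eq_true hq
        rw [cond_true, ma_bit g3 (by omega) (hs _ g1).1]
        unfold sgn; split_ifs <;> omega
    · change (msk MAX (E / 32 * 4 + _)).testBit _ = true ↔ _
      have hV := V_le g4 (hs _ g2).1
      rw [e1, g8]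
      cases hq : Nat.beq ((p + q + sg) % 2) 0
      · have hq' := Nat.ne_of_beq_eq_false hq
        rw [cond_false, ma_bit g4 (by omega) (hs _ g2).1]
        unfold sgn; split_ifs <;> omega
      · have hq' := Nat.eq_of_beq_eq_true hq
        rw [cond_true, ma_bit g4 (by omega) (hs _ g2).1]
        unfold sgn; split_ifs <;> omega
  · left; rfl

def holds (w : ℕ → ℕ → ℕ → ℕ → ℤ) (l : Lit) : Prop :=
  lk2 w [l.a, l.b, l.c] [l.d, l.e, l.f] = 2 * (l.v : ℤ) - 2 ↔ l.pol = true

def Lem (ls : List Lit) : Prop := ∀ w, HH w → ¬ ∀ l ∈ ls, holds w l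

theorem gd_lt (g i : ℕ) : gd g i < 16 := Nat.mod_lt _ (by decide)

theorem go3_sem (h : HH w) (hs : St w σ) {D : ℕ} (hD : Inv σ D) {u : ℕ} (hu : u < 84) (g sg : ℕ)
    (ls : List Lit) (hb : (go3 D u g sg ls).testBit (σ u) = true) :
    ∀ l ∈ ls, holds (act w (gd g) (sgn sg)) l := by
  induction ls with
  | nil => intro l hl; cases hl
  | cons l ls ih =>
    have e : go3 D u g sg (l :: ls) = lv (pt (gd g l.a) (gd g l.b) (gd g l.c))
      (pt (gd g l.d) (gd g l.e) (gd g l.f)) l.v sg (k3 D u l.pol (go3 D u g sg ls)) 0 := rfl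
    rw [e] at hb
    have key : holds (act w (gd g) (sgn sg)) l ∧ (go3 D u g sg ls).testBit (σ u) = true := by
      rcases lv_sem h hs (gd_lt g l.a) (gd_lt g l.b) (gd_lt g l.c) (gd_lt g l.d) (gd_lt g l.e)
        (gd_lt g l.f) l.v sg (k3 D u l.pol (go3 D u g sg ls)) 0 with h1 | ⟨t', u', i, j, ht, hu', h1, h2, h3⟩
      · rw [h1] at hb; simp at hb
      rw [h1] at hb
      unfold holds
      rw [lk2_act]
      simp only [List.map_cons, List.map_nil]
      unfold k3 at hb
      cases c1 : Nat.beq t' u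
      · cases c2 : Nat.beq u' u
        · rw [c1, c2, cond_false, cond_false] at hb
          cases c3 : Nat.beq (Nat.land (msk D t') (pm (!l.pol) (msk MAX i))) 0
          · rw [c3] at hb; simp at hb
          · rw [c3, cond_true] at hb
            refine ⟨?_, hb⟩
            have h4 := miss hs hD ht c3
            have h5 := pm_bit (!l.pol) (msk MAX i) _ (hs _ ht).1
            rw [h4, h2] at h5
            cases hp : l.pol <;> simp [hp] at h5 ⊢ <;> exact h5
        · rw [c1, c2, cond_false, cond_true, land_bit, Bool.and_eq_true,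
            pm_bit _ _ _ (hs _ hu).1] at hb
          rw [Nat.eq_of_beq_eq_true c2] at h3
          exact ⟨h3.symm.trans hb.1, hb.2⟩
      · rw [c1, cond_true, land_bit, Bool.and_eq_true, pm_bit _ _ _ (hs _ hu).1] at hb
        rw [Nat.eq_of_beq_eq_true c1] at h2
        exact ⟨h2.symm.trans hb.1, hb.2⟩
    intro l' hl'
    rcases List.mem_cons.1 hl' with rfl | hl'
    · exact key.1
    · exact ih key.2 l' hl'

theorem fresh_sem (l : List ℕ) : ∀ acc, fresh l acc = true →
    good l ∧ ∀ x ∈ l, acc.testBit x = false := by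
  induction l with
  | nil => intro acc _; exact ⟨⟨List.nodup_nil, by simp⟩, by simp⟩
  | cons x l ih =>
    intro acc hf
    have e : fresh (x :: l) acc = and (and (Nat.blt x 9) (Nat.beq (acc &&& (1 <<< x)) 0))
      (fresh l (acc ||| (1 <<< x))) := rfl
    rw [e, Bool.and_eq_true, Bool.and_eq_true, Nat.blt_eq, Nat.beq_eq, Nat.one_shiftLeft] at hf
    obtain ⟨⟨h1, h2⟩, h3⟩ := hf
    obtain ⟨⟨h4, h5⟩, h6⟩ := ih _ h3
    have h7 : acc.testBit x = false := by
      have := Nat.testBit_and acc (2 ^ x) x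
      rw [h2, Nat.testBit_two_pow_self] at this
      simpa using this
    refine ⟨⟨List.nodup_cons.2 ⟨fun hx => ?_, h4⟩, ?_⟩, ?_⟩
    · have := h6 x hx
      rw [Nat.testBit_or, Nat.testBit_two_pow_self] at this
      simp at this
    · intro y hy
      rcases List.mem_cons.1 hy with rfl | hy
      · exact h1
      · exact h5 y hy
    · intro y hy
      rcases List.mem_cons.1 hy with rfl | hy
      · exact h7
      · have := h6 y hy
        rw [Nat.testBit_or, Bool.or_eq_false_iff] at this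
        exact this.1

theorem st3_sound (h : HH w) (hs : St w σ) {D : ℕ} (hD : Inv σ D) (L : List (List Lit)) (id : ℕ)
    (hL : ∀ j < id, Lem (nth L j)) (u j sg g : ℕ) : Inv σ (st3 L id D u j sg g) := by
  unfold st3
  cases hc : and _ _
  · exact hD
  · rw [Bool.and_eq_true, Nat.blt_eq] at hc
    refine inv_rem hs hD _ _ fun hu => ?_
    rw [Bool.eq_false_iff]
    intro hb
    exact hL j hc.1 _ (HH_act h (gd g) (sgn sg) (by unfold sgn; split_ifs <;> simp)
      (fresh_sem _ _ hc.2).1) (go3_sem h hs hD hu g sg _ hb)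

theorem step_sound (h : HH w) (hs : St w σ) {D : ℕ} (hD : Inv σ D) (L : List (List Lit)) (id : ℕ)
    (hL : ∀ j < id, Lem (nth L j)) (c : ℕ) : Inv σ (step L id D c) := by
  unfold step
  cases Nat.beq (Nat.mod c 4) 0
  · cases Nat.beq (Nat.mod c 4) 1
    · cases Nat.beq (Nat.mod c 4) 2
      · exact st3_sound h hs hD L id hL _ _ _ _
      · exact st2_sound h hs hD _ _ _
    · exact st1_sound h hs hD _ _ (Nat.mod_lt _ (by decide)) (Nat.mod_lt _ (by decide))
  · exact st0_sound h hs hD _ _ (Nat.mod_lt _ (by decide)) (Nat.mod_lt _ (by decide))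

theorem run_sound (h : HH w) (hs : St w σ) (L : List (List Lit)) (id : ℕ)
    (hL : ∀ j < id, Lem (nth L j)) (c n : ℕ) : ∀ D, Inv σ D → Inv σ (run L id c n D) := by
  induction n with
  | zero => intro D hD; exact hD
  | succ n ih =>
    intro D hD
    have e : run L id c (n + 1) D =
      force (tab c 52 n) (fun x => force (step L id D x) (run L id c n)) := rfl
    rw [e, force_eq, force_eq]
    exact ih _ (step_sound h hs hD L id hL _)

theorem chk_sound (h : HH w) (hs : St w σ) (L : List (List Lit)) (id : ℕ)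
    (hL : ∀ j < id, Lem (nth L j)) (p : Pf) : ∀ D, Inv σ D → chk L id p D = true → False := by
  induction p with
  | leaf u =>
    intro D hD hc
    have e : chk L id (.leaf u) D = and (Nat.blt u 84) (Nat.beq (msk D u) 0) := rfl
    rw [e, Bool.and_eq_true, Nat.blt_eq, Nat.beq_eq] at hc
    have := inv_msk hs hD hc.1
    rw [hc.2] at this
    simp at this
  | cont n c p ih =>
    intro D hD hc
    have e : chk L id (.cont n c p) D = force (run L id c n D) (chk L id p) := rfl
    rw [e, force_eq] at hc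
    exact ih _ (run_sound h hs L id hL c n D hD) hc
  | br t i a b iha ihb =>
    intro D hD hc
    have e : chk L id (.br t i a b) D = and (force (rem D t (Nat.xor FULL (msk MAX i))) (chk L id a))
      (force (rem D t (msk MAX i)) (chk L id b)) := rfl
    rw [e, force_eq, force_eq, Bool.and_eq_true] at hc
    by_cases hb : (msk MAX i).testBit (σ t) = true
    · refine iha _ (inv_rem hs hD _ _ fun ht => ?_) hc.1
      rw [xfull_bit _ _ (hs t ht).1, hb]; rfl
    · exact ihb _ (inv_rem hs hD _ _ fun _ => by simpa using hb) hc.2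

theorem ALL_eq : ALL = 2 ^ 12684 - 1 := by decide +kernel

theorem ini_sound (h : HH w) (hs : St w σ) (ls : List Lit) (hl : ∀ l ∈ ls, holds w l) :
    Inv σ (ini ls) := by
  induction ls with
  | nil =>
    intro t ht
    show ALL.testBit _ = true
    have := (hs t ht).1
    rw [ALL_eq, Nat.testBit_two_pow_sub_one, decide_eq_true_eq]; omega
  | cons l ls ih =>
    have ih' := ih fun l' hl' => hl l' (List.mem_cons_of_mem _ hl')
    have e : ini (l :: ls) = cond (small l) (lv (pt l.a l.b l.c) (pt l.d l.e l.f) l.v 0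
      (fun t _ i _ => rem (ini ls) t (pm (not l.pol) (msk MAX i))) (ini ls)) (ini ls) := rfl
    rw [e]
    cases hsm : small l
    · exact ih'
    · obtain ⟨ha, hb, hc, hd, he, hf⟩ := of_decide_eq_true hsm
      rw [cond_true]
      rcases lv_sem h hs ha hb hc hd he hf l.v 0
        (fun t _ i _ => rem (ini ls) t (pm (not l.pol) (msk MAX i))) (ini ls) with
        h1 | ⟨t', u', i, j, ht, hu', h1, h2, h3⟩
      · rw [h1]; exact ih'
      · rw [h1]
        refine inv_rem hs ih' _ _ fun _ => ?_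
        have h5 := pm_bit (!l.pol) (msk MAX i) _ (hs _ ht).1
        have h6 := hl l List.mem_cons_self
        unfold holds at h6
        rw [h2, show sgn 0 = 1 from rfl, one_mul, h6] at h5
        rw [Bool.eq_false_iff]
        intro hh
        rw [h5] at hh
        cases hp : l.pol <;> simp [hp] at hh

end

theorem check_sound (L : List (List Lit)) (id : ℕ) (hL : ∀ j < id, Lem (nth L j)) (p : Pf)
    (hc : check L id p = true) : ∀ j < id + 1, Lem (nth L j) := by
  intro j hj
  rcases Nat.lt_succ_iff_lt_or_eq.1 hj with hj | rfl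
  · exact hL j hj
  · intro w h hl
    obtain ⟨σ, hs⟩ := st_exists h
    unfold check at hc
    rw [force_eq] at hc
    exact chk_sound h hs L j hL p _ (ini_sound h hs _ hl) hc

end Pool.Agent.H.MP_720da9_gt
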