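import Pool.Agent.H.MP_720da9_gt.TP1

namespace Pool.Agent.H.MP_720da9_gt

theorem beq_false {a b : ℕ} (h : a ≠ b) : Nat.beq a b = false := by
  cases e : Nat.beq a b
  · rfl
  · exact absurd (Nat.eq_of_beq_eq_true e) h

theorem mu5 (μ : ℕ → ℕ → ℤ) (h0 : ∀ j, μ 0 j = 0) (has : ∀ i j, μ j i = - μ i j)
    (a b c d e f : ℤ) (h1 : μ 1 2 = 2 * a) (h2 : μ 1 3 = 2 * b) (h3 : μ 1 4 = 2 * c)
    (h4 : μ 2 3 = 2 * d) (h5 : μ 2 4 = 2 * e) (h6 : μ 3 4 = 2 * f) :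
    ∀ i < 5, ∀ j < 5, μ i j = 2 * x5 a b c d e f i j := by
  intro i hi j hj
  have e1 := has i j
  have e2 := h0 i
  have e3 := h0 j
  interval_cases i <;> interval_cases j <;> simp only [x5] <;> omega

theorem mu6 (μ : ℕ → ℕ → ℤ) (h0 : ∀ j, μ 0 j = 0) (has : ∀ i j, μ j i = - μ i j)
    (x : ℕ → ℕ → ℤ) (hx : ∀ i < 5, ∀ j < 5, μ i j = 2 * x i j) (g h k m : ℤ)
    (h1 : μ 1 5 = 2 * g) (h2 : μ 2 5 = 2 * h) (h3 : μ 3 5 = 2 * k) (h4 : μ 4 5 = 2 * m) :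
    ∀ i < 6, ∀ j < 6, μ i j = 2 * x6 x (col g h k m) i j := by
  have hc : ∀ i < 6, μ i 5 = 2 * col g h k m i := by
    intro i hi
    have e1 := has i 5
    have e2 := h0 5
    interval_cases i <;> simp only [col] <;> omega
  intro i hi j hj
  unfold x6
  by_cases e : j = 5
  · subst e; exact hc i hi
  · have e' : Nat.beq j 5 = false := beq_false e
    rw [e']
    by_cases e2 : i = 5
    · subst e2
      have := hc j hj
      have := has j 5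
      simp only [Nat.beq_refl, cond_true, cond_false]; omega
    · have e2' : Nat.beq i 5 = false := beq_false e2
      rw [e2']
      exact hx i (by omega) j (by omega)

theorem okc_of (f : ℕ → ℕ → ℤ) (hf : ∀ i j, f j i = - f i j) (r : ℕ → ℕ) (n : ℕ)
    (hb : ∀ l : List ℕ, 3 ≤ l.length → l.Nodup → (∀ x ∈ l, x < n) → |cs f (l.map r)| < 4)
    (x : ℕ → ℕ → ℤ) (hx : ∀ i < n, ∀ j < n, cs f [r 0, r i, r j] = 2 * x i j)
    (L : List (List ℕ)) (hL : ∀ l ∈ L, 3 ≤ l.length ∧ l.Nodup ∧ ∀ x ∈ l, x < n) :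
    okc x L = true := by
  unfold okc
  rw [List.all_eq_true]
  intro l hl
  obtain ⟨h1, h2, h3⟩ := hL l hl
  have h4 := hb l h1 h2 h3
  rw [gauge f hf, cs_congr _ (fun i j => 2 * x i j) l (fun i hi j hj => hx i (h3 i hi) j (h3 j hj)),
    cs_mul, abs_lt] at h4
  rw [Nat.ble_eq]
  omega

theorem mu_0 (f : ℕ → ℕ → ℤ) (hf : ∀ i j, f j i = - f i j) (r : ℕ → ℕ) (j : ℕ) :
    cs f [r 0, r 0, r j] = 0 := by
  rw [cs3]
  have := hf (r 0) (r 0)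
  have := hf (r 0) (r j)
  omega

theorem mu_as (f : ℕ → ℕ → ℤ) (hf : ∀ i j, f j i = - f i j) (r : ℕ → ℕ) (i j : ℕ) :
    cs f [r 0, r j, r i] = - cs f [r 0, r i, r j] := by
  rw [cs3, cs3]
  have := hf (r 0) (r i)
  have := hf (r 0) (r j)
  have := hf (r i) (r j)
  omega

theorem dig {z y : ℤ} (h : z = 2 * y) (hb : |z| < 4) : ∃ a : ℕ, a < 3 ∧ y = dg a := by
  rw [abs_lt] at hb
  refine ⟨(y + 1).toNat, by omega, ?_⟩
  unfold dg; omega

theorem s5lem (f : ℕ → ℕ → ℤ) (hf : ∀ i j, f j i = - f i j) (r : ℕ → ℕ)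
    (hb : ∀ l : List ℕ, 3 ≤ l.length → l.Nodup → (∀ x ∈ l, x < 5) → |cs f (l.map r)| < 4)
    (a b c d e g : ℕ) (ha : a < 3) (hb' : b < 3) (hc : c < 3) (hd : d < 3) (he : e < 3) (hg : g < 3)
    (h1 : cs f [r 0, r 1, r 2] = 2 * dg a) (h2 : cs f [r 0, r 1, r 3] = 2 * dg b)
    (h3 : cs f [r 0, r 1, r 4] = 2 * dg c) (h4 : cs f [r 0, r 2, r 3] = 2 * dg d)
    (h5 : cs f [r 0, r 2, r 4] = 2 * dg e) (h6 : cs f [r 0, r 3, r 4] = 2 * dg g) :
    bit OKT (code5 a b c d e g) = true := by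
  have hx := mu5 (fun i j => cs f [r 0, r i, r j]) (mu_0 f hf r) (mu_as f hf r) _ _ _ _ _ _
    h1 h2 h3 h4 h5 h6
  exact imp_spec (allLt_spec (allLt_spec (allLt_spec (allLt_spec (allLt_spec (allLt_spec c_5
    a ha) b hb') c hc) d hd) e he) g hg) (okc_of f hf r 5 hb _ hx CY5 c_CY5)

theorem s6lem (f : ℕ → ℕ → ℤ) (hf : ∀ i j, f j i = - f i j) (r : ℕ → ℕ)
    (hb : ∀ l : List ℕ, 3 ≤ l.length → l.Nodup → (∀ x ∈ l, x < 6) → |cs f (l.map r)| < 4)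
    (hev : ∀ i j, [0, i, j].Nodup → i < 6 → j < 6 → 2 ∣ cs f [r 0, r i, r j]) :
    ∃ s < 151, ∀ j, 1 ≤ j → j ≤ 20 → cs f ((LT j).map r) = 2 * (V s j : ℤ) - 2 := by
  have key : ∀ i j, [0, i, j].Nodup → i < 6 → j < 6 →
      ∃ a : ℕ, a < 3 ∧ cs f [r 0, r i, r j] = 2 * dg a := by
    intro i j h hi hj
    obtain ⟨y, hy⟩ := hev i j h hi hj
    obtain ⟨a, ha, rfl⟩ := dig hy (hb [0, i, j] (by simp) h (by simp; omega))
    exact ⟨a, ha, hy⟩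
  obtain ⟨a, ha, h1⟩ := key 1 2 (by decide) (by decide) (by decide)
  obtain ⟨b, hb', h2⟩ := key 1 3 (by decide) (by decide) (by decide)
  obtain ⟨c, hc, h3⟩ := key 1 4 (by decide) (by decide) (by decide)
  obtain ⟨d, hd, h4⟩ := key 2 3 (by decide) (by decide) (by decide)
  obtain ⟨e, he, h5⟩ := key 2 4 (by decide) (by decide) (by decide)
  obtain ⟨g, hg, h6⟩ := key 3 4 (by decide) (by decide) (by decide)
  obtain ⟨p, hp, h7⟩ := key 1 5 (by decide) (by decide) (by decide)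
  obtain ⟨q, hq, h8⟩ := key 2 5 (by decide) (by decide) (by decide)
  obtain ⟨k, hk, h9⟩ := key 3 5 (by decide) (by decide) (by decide)
  obtain ⟨m, hm, h10⟩ := key 4 5 (by decide) (by decide) (by decide)
  have h5' := s5lem f hf r (fun l h1 h2 h3 => hb l h1 h2 fun x hx => by have := h3 x hx; omega)
    a b c d e g ha hb' hc hd he hg h1 h2 h3 h4 h5 h6
  have hx := mu5 (fun i j => cs f [r 0, r i, r j]) (mu_0 f hf r) (mu_as f hf r) _ _ _ _ _ _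
    h1 h2 h3 h4 h5 h6
  have hx6 := mu6 (fun i j => cs f [r 0, r i, r j]) (mu_0 f hf r) (mu_as f hf r) _ hx _ _ _ _
    h7 h8 h9 h10
  have hA := imp_spec (allLt_spec (allLt_spec (allLt_spec (allLt_spec (allLt_spec (allLt_spec c_6
    a ha) b hb') c hc) d hd) e he) g hg) h5'
  have hB := imp_spec (allLt_spec (allLt_spec (allLt_spec (allLt_spec hA p hp) q hq) k hk) m hm)
    (okc_of f hf r 6 hb _ hx6 CY6 c_CY6)
  rw [force_eq] at hB
  obtain ⟨s, hs, hC⟩ := anyLt_spec hB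
  rw [Bool.and_eq_true] at hC
  refine ⟨s, hs, fun j hj1 hj2 => ?_⟩
  obtain ⟨j, rfl⟩ : ∃ j', j = j' + 1 := ⟨j - 1, by omega⟩
  have hD := of_decide_eq_true (allLt_spec hC.2 j (by omega))
  have hl := c_LT j (by omega)
  rw [gauge f hf, cs_congr _ _ _ (fun i hi j hj => hx6 i (hl i hi) j (hl j hj)), cs_mul, hD]
  unfold dg; ring

def St (w : ℕ → ℕ → ℕ → ℕ → ℤ) (σ : ℕ → ℕ) : Prop :=
  ∀ t < 84, σ t < 151 ∧ ∀ j, 1 ≤ j → j ≤ 20 →
    lk2 w (T t) ((LT j).map (cmp t)) = 2 * (V (σ t) j : ℤ) - 2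

theorem st_exists {w : ℕ → ℕ → ℕ → ℕ → ℤ} (h : HH w) : ∃ σ, St w σ := by
  have : ∀ t, ∃ s, t < 84 → s < 151 ∧ ∀ j, 1 ≤ j → j ≤ 20 →
      lk2 w (T t) ((LT j).map (cmp t)) = 2 * (V s j : ℤ) - 2 := by
    intro t
    by_cases ht : t < 84
    · have hg := of_decide_eq_true (allLt_spec c_T t ht)
      obtain ⟨s, hs, h2⟩ := s6lem (lam w (T t)) (lam_as h (T t)) (cmp t)
        (fun l h1 h2 h3 => h.bd (T t) (l.map (cmp t)) (by simp [T, tri]) (by simpa)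
          (good_map _ 6 _ hg l h2 h3))
        (fun i j h1 hi hj => h.ev _ _ _ _ _ _ (good_map (T t) 6 _ hg [0, i, j] h1 (by simp; omega)))
      exact ⟨s, fun _ => ⟨hs, h2⟩⟩
    · exact ⟨0, fun h => absurd h ht⟩
  choose σ hσ using this
  exact ⟨σ, fun t ht => hσ t ht⟩

end Pool.Agent.H.MP_720da9_gt
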