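import Pool.Agent.H.MP_720da9_gt.Abs
import Pool.Agent.H.MP_720da9_gt.Chk

namespace Pool.Agent.H.MP_720da9_gt

noncomputable def allLt (n : ℕ) (p : ℕ → Bool) : Bool := Nat.rec true (fun i r => and (p i) r) n
noncomputable def anyLt (n : ℕ) (p : ℕ → Bool) : Bool := Nat.rec false (fun i r => or (p i) r) n

theorem allLt_spec {n : ℕ} {p : ℕ → Bool} (h : allLt n p = true) : ∀ i < n, p i = true := by
  induction n with
  | zero => intro i hi; omega
  | succ n ih =>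
    have h' : (p n && allLt n p) = true := h
    rw [Bool.and_eq_true] at h'
    intro i hi
    rcases Nat.lt_succ_iff_lt_or_eq.1 hi with hi | rfl
    · exact ih h'.2 i hi
    · exact h'.1

theorem anyLt_spec {n : ℕ} {p : ℕ → Bool} (h : anyLt n p = true) : ∃ i < n, p i = true := by
  induction n with
  | zero => exact absurd h (by simp [anyLt])
  | succ n ih =>
    have h' : (p n || anyLt n p) = true := h
    rw [Bool.or_eq_true] at h'
    rcases h' with h' | h'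
    · exact ⟨n, by omega, h'⟩
    · obtain ⟨i, hi, h2⟩ := ih h'
      exact ⟨i, by omega, h2⟩

theorem force_eq {α : Type} (n : ℕ) (k : ℕ → α) : force n k = k n := by cases n <;> rfl

def tri (x : ℕ) : List ℕ := [x % 16, x / 16 % 16, x / 256 % 16]
def T (t : ℕ) : List ℕ := tri (tab TX 12 t)
def LT (j : ℕ) : List ℕ := tri (tab LX 12 j)
def cmp (t i : ℕ) : ℕ := tab CX 4 (t * 8 + i)
def V (s j : ℕ) : ℕ := tab VX 2 (s * 32 + j)
def bit (X i : ℕ) : Bool := Nat.beq (Nat.mod (Nat.shiftRight X i) 2) 1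
def sk (i z : ℕ) : ℕ := if z < i then z else z + 1
def RJ (i z : ℕ) : ℕ := tab RJX 5 (i * 8 + z)
def RC (i s : ℕ) : ℕ := (V s (RJ i 0) + 1) + 5 * (V s (RJ i 1) + 1) + 25 * (V s (RJ i 2) + 1) +
  125 * (V s (RJ i 3) + 1) + 625 * (V s (RJ i 4) + 1) + 3125 * (V s (RJ i 5) + 1)
def SC (k : ℕ) : ℕ := tab SCX 14 k

theorem bit_eq (X i : ℕ) : bit X i = X.testBit i := by
  unfold bit
  rw [Nat.testBit_eq_decide_div_mod_eq, ← Nat.shiftRight_eq_div_pow]
  rcases Nat.mod_two_eq_zero_or_one (X >>> i) with h | h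
  · have h' : Nat.mod (Nat.shiftRight X i) 2 = 0 := h
    rw [h', h]; rfl
  · have h' : Nat.mod (Nat.shiftRight X i) 2 = 1 := h
    rw [h', h]; rfl

def PDJ (t u e : ℕ) : Prop := e = 0 ∨ (t < 84 ∧ u < 84 ∧ 1 ≤ e % 32 ∧ e % 32 ≤ 20 ∧ 1 ≤ e / 32 ∧
  e / 32 ≤ 20 ∧ (LT (e % 32)).map (cmp t) = T u ∧ (LT (e / 32)).map (cmp u) = T t)
instance (t u e : ℕ) : Decidable (PDJ t u e) := by unfold PDJ; infer_instance

theorem c_DJ : (allLt 128 fun t => allLt 128 fun u =>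
    decide (PDJ t u (tab DJX 10 (t * 128 + u)))) = true := by decide +kernel

theorem c_MA : (allLt 21 fun j => allLt 151 fun s => and (Nat.ble (V s j) 2) (allLt 4 fun v =>
    bit (msk MAX (j * 4 + v)) s == and (Nat.ble 1 j) (Nat.beq (V s j) v))) = true := by
  decide +kernel

def PPT (a b c p : ℕ) : Prop := p / 2 < 84 →
  (p % 2 = 0 ∧ isRot (T (p / 2)) a b c) ∨ (p % 2 = 1 ∧ isRot (T (p / 2)) b a c)
instance (a b c p : ℕ) : Decidable (PPT a b c p) := by unfold PPT; infer_instance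

theorem c_PT : (allLt 16 fun a => allLt 16 fun b => allLt 16 fun c =>
    decide (PPT a b c (pt a b c))) = true := by decide +kernel

theorem c_T : (allLt 84 fun t => decide (good (T t ++ (List.range 6).map (cmp t)))) = true := by
  decide +kernel

def PK6 (z i tu : ℕ) : Prop := tu < 16384 ∧ tab DJX 10 tu ≠ 0 ∧
  T (tu / 128) = (LT (i + 1)).map (cmp z) ∧ T (tu % 128) = (LT (20 - i)).map (cmp z)
instance (z i tu : ℕ) : Decidable (PK6 z i tu) := by unfold PK6; infer_instance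

theorem c_K6 : (allLt 84 fun z => allLt 10 fun i =>
    decide (PK6 z i (tab K6X 14 (z * 10 + i)))) = true := by decide +kernel

def PRJ (i : ℕ) : Prop := LT (RJ i 0) = [0, 1, 2].map (sk i) ∧ LT (RJ i 1) = [0, 1, 3].map (sk i) ∧
  LT (RJ i 2) = [0, 1, 4].map (sk i) ∧ LT (RJ i 3) = [0, 2, 3].map (sk i) ∧
  LT (RJ i 4) = [0, 2, 4].map (sk i) ∧ LT (RJ i 5) = [0, 3, 4].map (sk i) ∧
  ∀ z < 6, 1 ≤ RJ i z ∧ RJ i z ≤ 20
instance (i : ℕ) : Decidable (PRJ i) := by unfold PRJ; infer_instance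

theorem c_RJ : (allLt 6 fun i => decide (PRJ i)) = true := by decide +kernel

def PEJ (t u e : ℕ) : Prop := e = 0 ∨ (t < 84 ∧ u < 84 ∧ e % 16 < 12 ∧ 1 ≤ e / 16 ∧ e / 16 ≤ 6 ∧
  (∀ z < 5, cmp t (sk (e % 16 / 2) z) = cmp u (sk (e / 16 - 1) z)) ∧
  ∃ x ∈ T t, ∃ y ∈ T t, isRot (T t) x y (cmp u (e / 16 - 1)) ∧
    ((e % 2 = 0 ∧ isRot (T u) x y (cmp t (e % 16 / 2))) ∨
      (e % 2 = 1 ∧ isRot (T u) y x (cmp t (e % 16 / 2)))) ∧
    good ([y, cmp u (e / 16 - 1), x, cmp t (e % 16 / 2)] ++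
      (List.range 5).map fun z => cmp t (sk (e % 16 / 2) z)))
instance (t u e : ℕ) : Decidable (PEJ t u e) := by unfold PEJ; infer_instance

theorem c_EJ : (allLt 128 fun t => allLt 128 fun u =>
    decide (PEJ t u (tab EJX 8 (t * 128 + u)))) = true := by decide +kernel

end Pool.Agent.H.MP_720da9_gt
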