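import Pool.Agent.H.MP_720da9_gt.TP0

namespace Pool.Agent.H.MP_720da9_gt

def imp (a b : Bool) : Bool := cond a b true

theorem imp_spec {a b : Bool} (h : imp a b = true) (ha : a = true) : b = true := by
  subst ha; exact h

theorem c_M0 : (allLt 64 fun k => Nat.beq (msk M2X k) 0) = true := by decide +kernel

theorem c_M2 : (allLt 6 fun i => allLt 151 fun s => force (RC i s) fun rc => allLt 64 fun k =>
    imp (bit (msk M2X ((i + 1) * 64 + k)) s) (and (Nat.blt k 51) (Nat.beq rc (SC k)))) = true := by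
  decide +kernel

theorem c_M1 : (allLt 6 fun i => allLt 151 fun s => force (RC i s) fun rc => allLt 51 fun k =>
    and (imp (bit OKT (rc + 7812 - SC k)) (bit (msk M1X (2 * i * 64 + k)) s))
      (imp (bit OKT (rc + SC k - 7812)) (bit (msk M1X ((2 * i + 1) * 64 + k)) s))) = true := by
  decide +kernel

def x5 (a b c d e f : ℤ) (i j : ℕ) : ℤ :=
  match i, j with
  | 1, 2 => a | 1, 3 => b | 1, 4 => c | 2, 3 => d | 2, 4 => e | 3, 4 => f
  | 2, 1 => -a | 3, 1 => -b | 4, 1 => -c | 3, 2 => -d | 4, 2 => -e | 4, 3 => -f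
  | _, _ => 0

def col (g h k m : ℤ) (i : ℕ) : ℤ :=
  match i with
  | 1 => g | 2 => h | 3 => k | 4 => m | _ => 0

def x6 (x : ℕ → ℕ → ℤ) (c : ℕ → ℤ) (i j : ℕ) : ℤ :=
  cond (Nat.beq j 5) (c i) (cond (Nat.beq i 5) (- c j) (x i j))

def okc (x : ℕ → ℕ → ℤ) (L : List (List ℕ)) : Bool :=
  L.all fun l => Nat.ble (cs x l).natAbs 1

def dg (a : ℕ) : ℤ := (a : ℤ) - 1

def code5 (a b c d e f : ℕ) : ℕ :=
  (a + 1) + 5 * (b + 1) + 25 * (c + 1) + 125 * (d + 1) + 625 * (e + 1) + 3125 * (f + 1)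

theorem c_5 : (allLt 3 fun a => allLt 3 fun b => allLt 3 fun c => allLt 3 fun d => allLt 3 fun e =>
    allLt 3 fun f => imp (okc (x5 (dg a) (dg b) (dg c) (dg d) (dg e) (dg f)) CY5)
      (bit OKT (code5 a b c d e f))) = true := by
  decide +kernel

noncomputable def fnd (x : ℕ → ℕ → ℤ) (code : ℕ) : Bool :=
  anyLt 151 fun s => and (Nat.beq (tab TTX 16 s) code)
    (allLt 20 fun j => decide (cs x (LT (j + 1)) = dg (V s (j + 1))))

theorem c_6 : (allLt 3 fun a => allLt 3 fun b => allLt 3 fun c => allLt 3 fun d => allLt 3 fun e =>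
    allLt 3 fun f => imp (bit OKT (code5 a b c d e f))
      (allLt 3 fun g => allLt 3 fun h => allLt 3 fun k => allLt 3 fun m =>
        imp (okc (x6 (x5 (dg a) (dg b) (dg c) (dg d) (dg e) (dg f)) (col (dg g) (dg h) (dg k) (dg m))) CY6)
          (force (a + 3 * b + 9 * c + 27 * g + 81 * d + 243 * e + 729 * h + 2187 * f + 6561 * k + 19683 * m)
            (fnd (x6 (x5 (dg a) (dg b) (dg c) (dg d) (dg e) (dg f))
              (col (dg g) (dg h) (dg k) (dg m))))))) = true := by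
  decide +kernel

theorem c_CY5 : ∀ l ∈ CY5, 3 ≤ l.length ∧ l.Nodup ∧ ∀ x ∈ l, x < 5 := by decide +kernel
theorem c_CY6 : ∀ l ∈ CY6, 3 ≤ l.length ∧ l.Nodup ∧ ∀ x ∈ l, x < 6 := by decide +kernel
theorem c_LT : ∀ j < 20, ∀ x ∈ LT (j + 1), x < 6 := by decide +kernel

end Pool.Agent.H.MP_720da9_gt
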